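import Pool.Agent.helper48.EL.Stage

/-!
# Asymptotic facts
-/

set_option autoImplicit false

open Metric Set Filter Complex MeasureTheory Topology

namespace Pool.Agent.helper48.EL

open Pool.Agent.helper98.ILF Pool.Agent.helper16.Multibrot

/-- The size up to which the points of the orbit are small. -/
noncomputable def YY (n : ℕ) : ℝ := Real.log n ^ 4

/-- The error of the comparison. -/
noncomputable def TT (n : ℕ) : ℝ := 2 * ((YY n + 1) ^ 2 / n * YY n ^ 2)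

lemma eventually_log (B : ℝ) : ∀ᶠ n : ℕ in atTop, B ≤ Real.log n :=
  (Real.tendsto_log_atTop.comp tendsto_natCast_atTop_atTop).eventually_ge_atTop B

lemma eventually_pow_log (k : ℕ) (B : ℝ) : ∀ᶠ n : ℕ in atTop, B * Real.log n ^ k ≤ n := by
  have h1 : Tendsto (fun x : ℝ => Real.log x ^ k / x) atTop (𝓝 0) :=
    (Real.isLittleO_pow_log_id_atTop (n := k)).tendsto_div_nhds_zero
  have h2 := (h1.const_mul B).comp (tendsto_natCast_atTop_atTop (R := ℝ))
  rw [mul_zero] at h2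
  filter_upwards [h2.eventually_lt_const one_pos, eventually_gt_atTop 0] with n hn hn0
  have hnR : (0 : ℝ) < n := by exact_mod_cast hn0
  simp only [Function.comp] at hn
  rw [mul_div_assoc', div_lt_one hnR] at hn
  exact hn.le

lemma basic_facts {n : ℕ} (hn : 100 ≤ n) (hl : 2 ≤ Real.log n)
    (hp : 2000 * Real.log n ^ 20 ≤ n) : Lrg n (YY n) (TT n) ∧ TT n ≤ 1 / Real.log n ^ 4 / 250 := by
  set ℓ := Real.log n with hℓ
  have hnR : (100 : ℝ) ≤ n := by exact_mod_cast hn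
  have hn0 : (0 : ℝ) < n := by linarith
  have h1 : (1 : ℝ) ≤ ℓ := by linarith
  have hm : ∀ {a b : ℕ}, a ≤ b → ℓ ^ a ≤ ℓ ^ b := fun h => pow_le_pow_right₀ h1 h
  have hY : YY n = ℓ ^ 4 := rfl
  have hY1 : 1 ≤ YY n := by rw [hY]; exact one_le_pow₀ h1
  have hY2 : YY n + 1 ≤ 2 * ℓ ^ 4 := by rw [hY] at hY1 ⊢; linarith
  have hT : TT n ≤ 8 * ℓ ^ 16 / n := by
    have h2 : (YY n + 1) ^ 2 ≤ (2 * ℓ ^ 4) ^ 2 := by gcongr
    have h3 : YY n ^ 2 = ℓ ^ 8 := by rw [hY]; ring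
    calc TT n = 2 * ((YY n + 1) ^ 2 / n * YY n ^ 2) := rfl
      _ ≤ 2 * ((2 * ℓ ^ 4) ^ 2 / n * ℓ ^ 8) := by rw [h3]; gcongr
      _ = 8 * ℓ ^ 16 / n := by ring
  have hT2 : TT n ≤ 1 / ℓ ^ 4 / 250 := by
    refine hT.trans ?_
    rw [div_div, div_le_div_iff₀ hn0 (by positivity)]
    calc 8 * ℓ ^ 16 * (ℓ ^ 4 * 250) = 2000 * ℓ ^ 20 := by ring
      _ ≤ 1 * (n : ℝ) := by linarith
  have h4 : ℓ ^ 4 ≤ ℓ ^ 20 := hm (by norm_num)
  have h16 : ℓ ^ 16 ≤ ℓ ^ 20 := hm (by norm_num)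
  have h12 : ℓ ^ 12 ≤ ℓ ^ 20 := hm (by norm_num)
  have h11 : ℓ ^ 1 ≤ ℓ ^ 20 := hm (by norm_num)
  refine ⟨⟨hn, hY1, by linarith, le_rfl, ?_, ?_, ?_, ?_⟩, hT2⟩
  · refine hT2.trans ?_
    have h5 : (16 : ℝ) ≤ ℓ ^ 4 := by
      calc (16 : ℝ) = 2 ^ 4 := by norm_num
        _ ≤ ℓ ^ 4 := pow_le_pow_left₀ (by norm_num) hl 4
    rw [div_div, div_le_div_iff₀ (by positivity) (by norm_num)]
    linarith
  · have h5 : Real.log (YY n) + 2 ≤ 3 * ℓ ^ 4 := by
      have h6 := Real.log_le_sub_one_of_pos (by linarith : 0 < YY n)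
      rw [hY] at h6 hY1 ⊢
      linarith
    have h6 : TT n + 4 * (YY n + 1) / n ≤ 16 * ℓ ^ 16 / n := by
      have h7 : 4 * (YY n + 1) / n ≤ 8 * ℓ ^ 16 / n := by
        apply div_le_div_of_nonneg_right _ hn0.le
        have : ℓ ^ 4 ≤ ℓ ^ 16 := hm (by norm_num)
        linarith
      have h8 : 16 * ℓ ^ 16 / (n : ℝ) = 8 * ℓ ^ 16 / n + 8 * ℓ ^ 16 / n := by ring
      linarith
    have h7 : 0 ≤ TT n + 4 * (YY n + 1) / n := by
      have : 0 ≤ TT n := by
        have h8 : TT n = 2 * ((YY n + 1) ^ 2 / n * YY n ^ 2) := rfl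
        rw [h8]; positivity
      have h9 : 0 ≤ YY n + 1 := by linarith
      positivity
    calc (Real.log (YY n) + 2) * (TT n + 4 * (YY n + 1) / n) ≤
        (3 * ℓ ^ 4) * (16 * ℓ ^ 16 / n) := by
          gcongr
      _ = 48 * ℓ ^ 20 / n := by ring
      _ ≤ 1 / 10 := by
          rw [div_le_iff₀ hn0]
          linarith
  · rw [hY]
    calc 192 * (ℓ ^ 4) ^ 3 = 192 * ℓ ^ 12 := by ring
      _ ≤ (n : ℝ) := by linarith
      _ ≤ (n : ℝ) ^ 2 := by nlinarith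
  · rw [div_le_iff₀ hn0]
    rw [pow_one] at h11
    linarith

lemma eventually_basic : ∀ᶠ n : ℕ in atTop, 100 ≤ n ∧ 2 ≤ Real.log n ∧
    2000 * Real.log n ^ 20 ≤ n := by
  filter_upwards [eventually_ge_atTop 100, eventually_log 2, eventually_pow_log 20 2000]
    with n h1 h2 h3
  exact ⟨h1, h2, h3⟩

lemma eventually_Lrg : ∀ᶠ n : ℕ in atTop, Lrg n (YY n) (TT n) := by
  filter_upwards [eventually_basic] with n h
  exact (basic_facts h.1 h.2.1 h.2.2).1

lemma tendsto_loglog : Tendsto (fun x : ℝ => (4 * Real.log x + 1) ^ 2 / x) atTop (𝓝 0) := by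
  have h2 : Tendsto (fun x : ℝ => Real.log x ^ 2 / x) atTop (𝓝 0) :=
    (Real.isLittleO_pow_log_id_atTop (n := 2)).tendsto_div_nhds_zero
  have h1 : Tendsto (fun x : ℝ => Real.log x ^ 1 / x) atTop (𝓝 0) :=
    (Real.isLittleO_pow_log_id_atTop (n := 1)).tendsto_div_nhds_zero
  have h0 : Tendsto (fun x : ℝ => x⁻¹) atTop (𝓝 0) := tendsto_inv_atTop_zero
  have h3 := ((h2.const_mul 16).add (h1.const_mul 8)).add h0
  simp only [mul_zero, add_zero] at h3
  refine h3.congr fun x => ?_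
  ring

/-- The error term of the tail tends to zero. -/
lemma tendsto_err : Tendsto (fun n : ℕ => (Real.log (YY n) + 1) ^ 2 *
    (30000 * Real.sqrt (9 * Real.log n / YY n + 30 * TT n))) atTop (𝓝 0) := by
  have h1 : Tendsto (fun n : ℕ => 120000 * ((4 * Real.log (Real.log n) + 1) ^ 2 / Real.log n))
      atTop (𝓝 0) := by
    have h2 := (tendsto_loglog.const_mul 120000).comp
      (Real.tendsto_log_atTop.comp (tendsto_natCast_atTop_atTop (R := ℝ)))
    rw [mul_zero] at h2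
    exact h2
  apply squeeze_zero' _ _ h1
  · filter_upwards with n
    positivity
  · filter_upwards [eventually_basic] with n hn
    obtain ⟨h2, h3⟩ := basic_facts hn.1 hn.2.1 hn.2.2
    set ℓ := Real.log n with hℓ
    have hl : 2 ≤ ℓ := hn.2.1
    have hℓ0 : 0 < ℓ := by linarith
    have hY : YY n = ℓ ^ 4 := rfl
    have h4 : Real.log (YY n) = 4 * Real.log ℓ := by
      rw [hY, Real.log_pow]; norm_num
    have h5 : 9 * ℓ / YY n + 30 * TT n ≤ (4 / ℓ) ^ 2 := by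
      have h6 : 9 * ℓ / YY n ≤ 9 / ℓ ^ 2 := by
        rw [hY, div_le_div_iff₀ (by positivity) (by positivity)]
        have : ℓ ^ 3 ≤ ℓ ^ 4 := pow_le_pow_right₀ (by linarith) (by norm_num)
        calc 9 * ℓ * ℓ ^ 2 = 9 * ℓ ^ 3 := by ring
          _ ≤ 9 * ℓ ^ 4 := by linarith
      have h7 : 30 * TT n ≤ 1 / ℓ ^ 2 := by
        calc 30 * TT n ≤ 30 * (1 / ℓ ^ 4 / 250) := by gcongr
          _ ≤ 1 / ℓ ^ 2 := by
              have h8 : 1 / ℓ ^ 4 ≤ 1 / ℓ ^ 2 :=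
                one_div_le_one_div_of_le (by positivity)
                  (pow_le_pow_right₀ (by linarith) (by norm_num))
              have h9 : 0 < 1 / ℓ ^ 4 := by positivity
              linarith
      have h8 : (4 / ℓ) ^ 2 = 16 * (1 / ℓ ^ 2) := by ring
      have h9 : 9 / ℓ ^ 2 = 9 * (1 / ℓ ^ 2) := by ring
      have h10 : 0 < 1 / ℓ ^ 2 := by positivity
      linarith
    have h6 : Real.sqrt (9 * ℓ / YY n + 30 * TT n) ≤ 4 / ℓ := by
      rw [Real.sqrt_le_left (by positivity)]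
      exact h5
    rw [h4]
    calc (4 * Real.log ℓ + 1) ^ 2 * (30000 * Real.sqrt (9 * ℓ / YY n + 30 * TT n)) ≤
        (4 * Real.log ℓ + 1) ^ 2 * (30000 * (4 / ℓ)) := by gcongr
      _ = 120000 * ((4 * Real.log ℓ + 1) ^ 2 / ℓ) := by ring

end Pool.Agent.helper48.EL
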