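import Pool.Agent.helper48.EL.Conj

/-!
# Attracting cycles persist
-/

set_option autoImplicit false

open Metric Set Filter Complex MeasureTheory Topology

namespace Pool.Agent.helper48.EL

open Pool.Agent.helper98.ILF Pool.Agent.helper16.Multibrot

lemma tendsto_iterate {ι : Type*} {l : Filter ι} {g : ι → ℂ → ℂ} {F : ℂ → ℂ}
    (hlim : ∀ w₀, Tendsto (fun q : ι × ℂ => g q.1 q.2) (l ×ˢ 𝓝 w₀) (𝓝 (F w₀))) (k : ℕ)
    (w₀ : ℂ) : Tendsto (fun q : ι × ℂ => (g q.1)^[k] q.2) (l ×ˢ 𝓝 w₀) (𝓝 (F^[k] w₀)) := by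
  induction k with
  | zero => exact tendsto_snd
  | succ k ih =>
    have h1 : Tendsto (fun q : ι × ℂ => (q.1, (g q.1)^[k] q.2)) (l ×ˢ 𝓝 w₀)
        (l ×ˢ 𝓝 (F^[k] w₀)) := tendsto_fst.prodMk ih
    have h2 := (hlim (F^[k] w₀)).comp h1
    rw [Function.iterate_succ_apply']
    refine h2.congr fun q => ?_
    simp only [Function.comp, Function.iterate_succ_apply']

lemma eventually_close {ι : Type*} {l : Filter ι} {g : ι → ℂ → ℂ} {F : ℂ → ℂ}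
    (hF : Continuous F)
    (hlim : ∀ w₀, Tendsto (fun q : ι × ℂ => g q.1 q.2) (l ×ˢ 𝓝 w₀) (𝓝 (F w₀)))
    {K : Set ℂ} (hK : IsCompact K) {ε : ℝ} (hε : 0 < ε) :
    ∀ᶠ p in l, ∀ w ∈ K, ‖g p w - F w‖ < ε := by
  have h1 : {q : ι × ℂ | ‖g q.1 q.2 - F q.2‖ < ε} ∈ l ×ˢ 𝓝ˢ K := by
    apply hK.mem_prod_nhdsSet_of_forall
    intro w _
    have h2 : Tendsto (fun q : ι × ℂ => ‖g q.1 q.2 - F q.2‖) (l ×ˢ 𝓝 w) (𝓝 ‖F w - F w‖) :=
      ((hlim w).sub ((hF.tendsto w).comp tendsto_snd)).norm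
    rw [sub_self, norm_zero] at h2
    exact h2.eventually_lt_const hε
  rw [mem_prod_iff] at h1
  obtain ⟨t1, ht1, t2, ht2, hsub⟩ := h1
  filter_upwards [ht1] with p hp w hw
  exact hsub (mk_mem_prod hp (subset_of_mem_nhdsSet ht2 hw))

/-- Attracting cycles persist under locally uniform convergence. -/
theorem persist {ι : Type*} {l : Filter ι} {g : ι → ℂ → ℂ} {F : ℂ → ℂ}
    (hg : ∀ p, Differentiable ℂ (g p)) (hF : Differentiable ℂ F)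
    (hlim : ∀ w₀, Tendsto (fun q : ι × ℂ => g q.1 q.2) (l ×ˢ 𝓝 w₀) (𝓝 (F w₀)))
    (h : HasAttractingCycle F) : ∀ᶠ p in l, HasAttractingCycle (g p) := by
  obtain ⟨z₀, k, hk, hz, hd⟩ := h
  set G := F^[k] with hG
  have hGd : Differentiable ℂ G := hF.iterate k
  obtain ⟨q, hq1, hq2⟩ := exists_between hd
  have hq0 : 0 ≤ q := (norm_nonneg _).trans hq1.le
  -- a disc
  have hGC : Continuous (deriv G) :=
    (hGd.contDiff (n := 1)).continuous_deriv le_rfl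
  have hev : ∀ᶠ y in 𝓝 z₀, ‖deriv G y‖ < q :=
    (hGC.norm.tendsto z₀).eventually_lt_const hq1
  obtain ⟨R, hR, hRd⟩ := nhds_basis_closedBall.eventually_iff.1 hev
  set ρ := R / 2 with hρ
  have hρ0 : 0 < ρ := by positivity
  set ε := (1 - q) * ρ / 2 with hε
  have hε0 : 0 < ε := by
    have : 0 < 1 - q := by linarith
    positivity
  have hlip : ∀ y ∈ closedBall z₀ R, ‖G y - z₀‖ ≤ q * ‖y - z₀‖ := by
    intro y hy
    have h1 := (convex_closedBall z₀ R).norm_image_sub_le_of_norm_deriv_le (f := G) (C := q)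
      (fun x _ => hGd x) (fun x hx => (hRd hx).le) (mem_closedBall_self hR.le) hy
    rwa [hz] at h1
  have hclose := eventually_close (K := closedBall z₀ R) (g := fun p => (g p)^[k]) (F := G)
    hGd.continuous (fun w₀ => tendsto_iterate hlim k w₀) (isCompact_closedBall z₀ R) hε0
  filter_upwards [hclose] with p hp
  have hgp : Differentiable ℂ ((g p)^[k]) := (hg p).iterate k
  have hsub : closedBall z₀ ρ ⊆ closedBall z₀ R := closedBall_subset_closedBall (by linarith)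
  obtain ⟨z, hz1, hz2⟩ := attracting_of_contraction hgp (c := z₀) (ρ := ρ) (q := (1 + q) / 2)
    hρ0.le (by linarith) (by
      intro y hy
      have h1 := hp y (hsub hy)
      have h2 := hlip y (hsub hy)
      rw [mem_closedBall, dist_eq_norm] at hy ⊢
      have h3 : (g p)^[k] y - z₀ = ((g p)^[k] y - G y) + (G y - z₀) := by ring
      rw [h3]
      have h4 := norm_add_le ((g p)^[k] y - G y) (G y - z₀)
      have h5 : q * ‖y - z₀‖ ≤ q * ρ := by gcongr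
      have h6 : ε ≤ (1 - q) * ρ := by
        rw [hε]
        have : 0 ≤ (1 - q) * ρ := by
          have : 0 ≤ 1 - q := by linarith
          positivity
        linarith
      linarith) (by
      intro y hy
      have h1 : ‖deriv (fun w => (g p)^[k] w - G w) y‖ ≤ ε / ρ := by
        apply Complex.norm_deriv_le_of_forall_mem_sphere_norm_le hρ0
        · exact (hgp.sub hGd).diffContOnCl
        · intro u hu
          have hu' : u ∈ closedBall z₀ R := by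
            rw [mem_sphere, dist_eq_norm] at hu
            rw [mem_closedBall, dist_eq_norm] at hy ⊢
            have h3 : u - z₀ = (u - y) + (y - z₀) := by ring
            rw [h3]
            have := norm_add_le (u - y) (y - z₀)
            linarith
          exact (hp u hu').le
      rw [deriv_fun_sub (hgp y) (hGd y)] at h1
      have h2 := (hRd (hsub hy)).le
      have h3 : deriv ((g p)^[k]) y = (deriv ((g p)^[k]) y - deriv G y) + deriv G y := by ring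
      rw [h3]
      have h4 := norm_add_le (deriv ((g p)^[k]) y - deriv G y) (deriv G y)
      have h5 : ε / ρ = (1 - q) / 2 := by
        rw [hε]; field_simp
      linarith)
  exact ⟨z, k, hk, hz1, hz2⟩

lemma pmap_sub_le {n : ℕ} (hn : 1 ≤ n) {ζ w : ℂ} (hw : ‖w - ζ‖ ≤ n / 2) :
    ‖pmap n ζ w - (Complex.exp w + ζ)‖ ≤
      Real.exp w.re * (‖w - ζ‖ ^ 2 / n) * Real.exp (‖w - ζ‖ ^ 2 / n) := by
  obtain ⟨η, hη, he⟩ := pmap_eq_exp hn hw
  have h1 := norm_exp_sub_exp_le (w + η) w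
  rw [add_sub_cancel_left] at h1
  rw [he]
  have h2 : ζ + Complex.exp (w + η) - (Complex.exp w + ζ) =
      Complex.exp (w + η) - Complex.exp w := by ring
  rw [h2]
  refine h1.trans ?_
  gcongr

lemma tendsto_pmap (ζ₀ w₀ : ℂ) : Tendsto (fun q : (ℕ × ℂ) × ℂ => pmap q.1.1 q.1.2 q.2)
    ((atTop ×ˢ 𝓝 ζ₀) ×ˢ 𝓝 w₀) (𝓝 (Complex.exp w₀ + ζ₀)) := by
  have hn : Tendsto (fun q : (ℕ × ℂ) × ℂ => (q.1.1 : ℝ)) ((atTop ×ˢ 𝓝 ζ₀) ×ˢ 𝓝 w₀) atTop :=
    tendsto_natCast_atTop_atTop.comp (tendsto_fst.comp tendsto_fst)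
  have hζ : Tendsto (fun q : (ℕ × ℂ) × ℂ => q.1.2) ((atTop ×ˢ 𝓝 ζ₀) ×ˢ 𝓝 w₀) (𝓝 ζ₀) :=
    tendsto_snd.comp tendsto_fst
  have hw : Tendsto (fun q : (ℕ × ℂ) × ℂ => q.2) ((atTop ×ˢ 𝓝 ζ₀) ×ˢ 𝓝 w₀) (𝓝 w₀) :=
    tendsto_snd
  have hx : Tendsto (fun q : (ℕ × ℂ) × ℂ => ‖q.2 - q.1.2‖) ((atTop ×ˢ 𝓝 ζ₀) ×ˢ 𝓝 w₀)
      (𝓝 ‖w₀ - ζ₀‖) := (hw.sub hζ).norm
  have hB : Tendsto (fun q : (ℕ × ℂ) × ℂ => ‖q.2 - q.1.2‖ ^ 2 / (q.1.1 : ℝ))
      ((atTop ×ˢ 𝓝 ζ₀) ×ˢ 𝓝 w₀) (𝓝 0) := (hx.pow 2).div_atTop hn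
  have hre : Tendsto (fun q : (ℕ × ℂ) × ℂ => Real.exp q.2.re) ((atTop ×ˢ 𝓝 ζ₀) ×ˢ 𝓝 w₀)
      (𝓝 (Real.exp w₀.re)) :=
    ((Real.continuous_exp.comp Complex.continuous_re).tendsto w₀).comp hw
  have hbound : Tendsto (fun q : (ℕ × ℂ) × ℂ => Real.exp q.2.re *
      (‖q.2 - q.1.2‖ ^ 2 / (q.1.1 : ℝ)) * Real.exp (‖q.2 - q.1.2‖ ^ 2 / (q.1.1 : ℝ)))
      ((atTop ×ˢ 𝓝 ζ₀) ×ˢ 𝓝 w₀) (𝓝 0) := by
    have := (hre.mul hB).mul ((Real.continuous_exp.tendsto 0).comp hB)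
    simpa using this
  have hmain : Tendsto (fun q : (ℕ × ℂ) × ℂ => pmap q.1.1 q.1.2 q.2 -
      (Complex.exp q.2 + q.1.2)) ((atTop ×ˢ 𝓝 ζ₀) ×ˢ 𝓝 w₀) (𝓝 0) := by
    apply squeeze_zero_norm' _ hbound
    have h1 : ∀ᶠ q : (ℕ × ℂ) × ℂ in (atTop ×ˢ 𝓝 ζ₀) ×ˢ 𝓝 w₀,
        ‖q.2 - q.1.2‖ ≤ ‖w₀ - ζ₀‖ + 1 := by
      filter_upwards [hx.eventually_lt_const (lt_add_one _)] with q hq
      exact hq.le
    filter_upwards [h1, hn.eventually_ge_atTop (2 * (‖w₀ - ζ₀‖ + 1)), hn.eventually_ge_atTop 1]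
      with q h2 h3 h4
    exact pmap_sub_le (by exact_mod_cast h4) (by linarith)
  have h2 : Tendsto (fun q : (ℕ × ℂ) × ℂ => Complex.exp q.2 + q.1.2)
      ((atTop ×ˢ 𝓝 ζ₀) ×ˢ 𝓝 w₀) (𝓝 (Complex.exp w₀ + ζ₀)) :=
    ((Complex.continuous_exp.tendsto w₀).comp hw).add hζ
  have h3 := hmain.add h2
  rw [zero_add] at h3
  refine h3.congr fun q => ?_
  ring

/-- The parameters without attracting cycle in the exponential family. -/
def expNonHyp : Set ℂ := {ζ | ¬ HasAttractingCycle (fun z : ℂ => Complex.exp z + ζ)}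

lemma isClosed_expNonHyp : IsClosed expNonHyp := by
  rw [← isOpen_compl_iff, isOpen_iff_mem_nhds]
  intro ζ₀ hζ₀
  have h0 : HasAttractingCycle (fun z : ℂ => Complex.exp z + ζ₀) := by
    by_contra h; exact hζ₀ h
  have h1 := persist (l := 𝓝 ζ₀) (g := fun ζ z => Complex.exp z + ζ)
    (F := fun z : ℂ => Complex.exp z + ζ₀)
    (fun ζ => by fun_prop) (by fun_prop) (fun w₀ => by
      have h2 : Tendsto (fun q : ℂ × ℂ => q.1) (𝓝 ζ₀ ×ˢ 𝓝 w₀) (𝓝 ζ₀) := tendsto_fst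
      have h3 : Tendsto (fun q : ℂ × ℂ => q.2) (𝓝 ζ₀ ×ˢ 𝓝 w₀) (𝓝 w₀) := tendsto_snd
      exact ((Complex.continuous_exp.tendsto w₀).comp h3).add h2) h0
  filter_upwards [h1] with ζ hζ h2
  exact h2 hζ

/-- Hyperbolicity of the exponential map gives hyperbolicity of the polynomials of high degree. -/
lemma eventually_hyperbolic {ζ₀ : ℂ} (h : ζ₀ ∉ expNonHyp) :
    ∀ᶠ p : ℕ × ℂ in atTop ×ˢ 𝓝 ζ₀, ∀ c : ℂ,
      (p.1 : ℂ) * c ^ (p.1 - 1) = Complex.exp p.2 → c ∈ hyperbolic p.1 := by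
  have h0 : HasAttractingCycle (fun z : ℂ => Complex.exp z + ζ₀) := by
    by_contra h'; exact h h'
  have h1 := persist (l := atTop ×ˢ 𝓝 ζ₀) (g := fun p : ℕ × ℂ => pmap p.1 p.2)
    (F := fun z : ℂ => Complex.exp z + ζ₀) (fun p => pmap_differentiable p.1 p.2) (by fun_prop)
    (fun w₀ => tendsto_pmap ζ₀ w₀) h0
  have h2 : ∀ᶠ p : ℕ × ℂ in atTop ×ˢ 𝓝 ζ₀, 2 ≤ p.1 :=
    tendsto_fst.eventually (eventually_ge_atTop 2)
  filter_upwards [h1, h2] with p hp hp2 c hc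
  obtain ⟨z, k, hk, hz, hd⟩ := hp
  exact hyperbolic_of_pmap hp2 hc hk hz hd

/-- Uniform version on compact sets. -/
lemma eventually_hyperbolic_compact {K : Set ℂ} (hK : IsCompact K) (h : K ∩ expNonHyp = ∅) :
    ∀ᶠ n : ℕ in atTop, ∀ ζ ∈ K, ∀ c : ℂ,
      (n : ℂ) * c ^ (n - 1) = Complex.exp ζ → c ∈ hyperbolic n := by
  have h1 : {p : ℕ × ℂ | ∀ c : ℂ, (p.1 : ℂ) * c ^ (p.1 - 1) = Complex.exp p.2 →
      c ∈ hyperbolic p.1} ∈ (atTop : Filter ℕ) ×ˢ 𝓝ˢ K := by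
    apply hK.mem_prod_nhdsSet_of_forall
    intro ζ hζ
    exact eventually_hyperbolic fun h' => (h ▸ (⟨hζ, h'⟩ : ζ ∈ K ∩ expNonHyp) : ζ ∈ (∅ : Set ℂ))
  rw [mem_prod_iff] at h1
  obtain ⟨t1, ht1, t2, ht2, hsub⟩ := h1
  filter_upwards [ht1] with n hn ζ hζ
  exact hsub (mk_mem_prod hn (subset_of_mem_nhdsSet ht2 hζ))

end Pool.Agent.helper48.EL
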