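import Pool.Agent.helper48.EL.Tail
import Pool.Agent.helper48.EL.Lim
import Pool.Agent.helper48.EL.Persist
import Pool.Agent.helper23.EL.M6
import Pool.Agent.helper98.ILF.ExpFinal

/-!
# The exponential family bounds the area of the non-hyperbolic part of `M_n`
-/

set_option autoImplicit false

open Metric Set Filter Complex MeasureTheory Topology

namespace Pool.Agent.helper48.EL

open Pool.Agent.helper98.ILF Pool.Agent.helper16.Multibrot

/-- The non-hyperbolic parameters of the exponential family modulo `2 π i`. -/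
def expStrip : Set ℂ := {c | (0 ≤ c.im ∧ c.im ≤ 2 * Real.pi) ∧
  ¬ HasAttractingCycle (fun z : ℂ => Complex.exp z + c)}

lemma volume_expStrip_lt : volume expStrip < ⊤ := by
  have hcov : expStrip ⊆ {c : ℂ | (-1 ≤ c.re ∧ c.re ≤ 1) ∧ (0 ≤ c.im ∧ c.im ≤ 2 * Real.pi)} ∪
      (expBad ∩ {c : ℂ | 1 ≤ c.re ∧ ((0 : ℝ) ≤ c.im ∧ c.im ≤ 0 + 2 * Real.pi)}) := by
    rintro c ⟨hc1, hc2⟩
    have hb : c ∈ expBad := fun h => hc2 h.1
    rcases le_total c.re 1 with h | h
    · left; exact ⟨⟨neg_one_le_re hb, h⟩, hc1⟩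
    · right; exact ⟨hb, h, hc1.1, by linarith [hc1.2]⟩
  refine lt_of_le_of_lt (measure_mono hcov) (lt_of_le_of_lt (measure_union_le _ _) ?_)
  rw [volume_rect]
  refine lt_of_le_of_lt (add_le_add_right (volume_expBad_strip le_rfl 0) _) ?_
  rw [ENNReal.add_lt_top]
  exact ⟨ENNReal.mul_lt_top ENNReal.ofReal_lt_top ENNReal.ofReal_lt_top, ENNReal.ofReal_lt_top⟩

lemma isClosed_expStrip : IsClosed expStrip := by
  have h1 : IsClosed {c : ℂ | 0 ≤ c.im ∧ c.im ≤ 2 * Real.pi} :=
    (isClosed_le continuous_const Complex.continuous_im).inter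
      (isClosed_le Complex.continuous_im continuous_const)
  exact h1.inter isClosed_expNonHyp

/-- The compact part. -/
lemma compact_part (R : ℝ) {ε : ENNReal} (hε : ε ≠ 0) : ∀ᶠ n : ℕ in atTop,
    volume (logBad n ∩ {ζ : ℂ | (-3 ≤ ζ.re ∧ ζ.re ≤ R) ∧ (0 ≤ ζ.im ∧ ζ.im ≤ 2 * Real.pi)}) ≤
      volume expStrip + ε := by
  set K : Set ℂ := {ζ : ℂ | (-3 ≤ ζ.re ∧ ζ.re ≤ R) ∧ (0 ≤ ζ.im ∧ ζ.im ≤ 2 * Real.pi)} with hK
  have hKc : IsClosed K :=
    ((isClosed_le continuous_const Complex.continuous_re).inter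
      (isClosed_le Complex.continuous_re continuous_const)).inter
    ((isClosed_le continuous_const Complex.continuous_im).inter
      (isClosed_le Complex.continuous_im continuous_const))
  have hKfin : volume K ≠ ⊤ := by
    rw [hK, volume_rect]
    exact ENNReal.mul_ne_top ENNReal.ofReal_ne_top ENNReal.ofReal_ne_top
  set G : Set ℂ := K \ expStrip with hG
  have hGm : MeasurableSet G := hKc.measurableSet.diff isClosed_expStrip.measurableSet
  have hGfin : volume G ≠ ⊤ := ne_top_of_le_ne_top hKfin (measure_mono sdiff_subset)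
  obtain ⟨L, hLG, hLc, hLv⟩ := hGm.exists_isCompact_sdiff_lt hGfin hε
  have hLn : L ∩ expNonHyp = ∅ := by
    rw [eq_empty_iff_forall_notMem]
    rintro ζ ⟨h1, h2⟩
    exact (hLG h1).2 ⟨(hLG h1).1.2, h2⟩
  filter_upwards [eventually_hyperbolic_compact hLc hLn] with n hn
  have hsub : logBad n ∩ K ⊆ expStrip ∪ (G \ L) := by
    rintro ζ ⟨⟨c, hc, hcM⟩, hζK⟩
    by_cases h : ζ ∈ expStrip
    · exact Or.inl h
    · refine Or.inr ⟨⟨hζK, h⟩, fun hζL => ?_⟩
      exact hcM.2 (hn ζ hζL c hc)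
  exact (measure_mono hsub).trans ((measure_union_le _ _).trans (add_le_add le_rfl hLv.le))

lemma exists_R {η : ℝ} (hη : 0 < η) : ∃ R : ℝ, 7 ≤ R ∧ 600000 * (R * Real.exp (-R)) ≤ η := by
  have h1 : Tendsto (fun R : ℝ => 600000 * (R * Real.exp (-R))) atTop (𝓝 0) := by
    have h2 := (Real.tendsto_pow_mul_exp_neg_atTop_nhds_zero 1).const_mul 600000
    simp only [mul_zero, pow_one] at h2
    exact h2
  obtain ⟨R, h2, h3⟩ := ((h1.eventually_le_const hη).and (eventually_ge_atTop 7)).exists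
  exact ⟨R, h3, h2⟩

/-- The main bound. -/
lemma eventually_le {η : ℝ} (hη : 0 < η) : ∀ᶠ n : ℕ in atTop,
    (n : ENNReal) * volume (multibrot n \ hyperbolic n) ≤ volume expStrip + ENNReal.ofReal η := by
  set a : ℝ := (volume expStrip).toReal with ha
  have ha0 : 0 ≤ a := ENNReal.toReal_nonneg
  have haE : volume expStrip = ENNReal.ofReal a := by
    rw [ha, ENNReal.ofReal_toReal volume_expStrip_lt.ne]
  set η' : ℝ := η / 6 with hη'
  have hη'0 : 0 < η' := by positivity
  obtain ⟨R, hR7, hR⟩ := exists_R hη'0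
  have hη'E : ENNReal.ofReal η' ≠ 0 := by simpa using hη'0
  -- the factor `n / (n - 1)`
  have hfac : Tendsto (fun n : ℕ => (n : ℝ) * (1 / ((n : ℝ) - 1)) * (a + 3 * η') + η') atTop
      (𝓝 (1 * (a + 3 * η') + η')) := by
    have h1 : Tendsto (fun n : ℕ => (n : ℝ) * (1 / ((n : ℝ) - 1))) atTop (𝓝 1) := by
      have h2 : Tendsto (fun x : ℝ => x * (1 / (x - 1))) atTop (𝓝 1) := by
        have h3 : Tendsto (fun x : ℝ => 1 + (x - 1)⁻¹) atTop (𝓝 (1 + 0)) :=
          tendsto_const_nhds.add (tendsto_inv_atTop_zero.comp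
            (tendsto_atTop_add_const_right _ (-1) tendsto_id))
        rw [add_zero] at h3
        refine h3.congr' ?_
        filter_upwards [eventually_gt_atTop (1 : ℝ)] with x hx
        have : x - 1 ≠ 0 := by linarith
        field_simp
        ring
      exact h2.comp tendsto_natCast_atTop_atTop
    exact (h1.mul_const _).add_const _
  have hfac' : ∀ᶠ n : ℕ in atTop, (n : ℝ) * (1 / ((n : ℝ) - 1)) * (a + 3 * η') + η' ≤ a + η := by
    apply hfac.eventually_le_const
    rw [hη']; linarith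
  have hcol : ∀ᶠ n : ℕ in atTop, (n : ENNReal) *
      volume (collar (n - 1) (Real.log n ^ 4 / n) (Real.log n / n)) ≤ ENNReal.ofReal η' :=
    (tendsto_collar.eventually_lt_const (pos_iff_ne_zero.2 hη'E)).mono fun n hn => hn.le
  have herr : ∀ᶠ n : ℕ in atTop, (Real.log (YY n) + 1) ^ 2 *
      (30000 * Real.sqrt (9 * Real.log n / YY n + 30 * TT n)) ≤ η' :=
    (tendsto_err.eventually_lt_const hη'0).mono fun n hn => hn.le
  filter_upwards [eventually_Lrg, compact_part R hη'E, hfac', hcol, herr, eventually_ge_atTop 3]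
    with n hL hcomp hf hc he hn3
  have hn0 := hL.npos
  have hY1 := hL.hY1
  have hYn : YY n ≤ n := by have := hL.hYn; linarith
  have hn3R : (3 : ℝ) ≤ n := by exact_mod_cast hn3
  have hδ : 1 / (n : ℝ) ≤ YY n / n := by gcongr
  have hcov : multibrot n \ hyperbolic n ⊆
      ((multibrot n \ hyperbolic n) ∩ annulus (n - 1) (1 / (8 * (n : ℝ))) (YY n / n)) ∪
        collar (n - 1) (YY n / n) (Real.log n / n) := by
    intro c hcM
    rcases nonhyp_subset (by omega) hδ hL.hlog hcM with h | h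
    · exact Or.inl ⟨hcM, h⟩
    · exact Or.inr h
  have h1 := volume_annulus_bad_le hn3 hY1 hYn
  have h2 := volume_tail_le hL hR7
  -- the logarithmic region
  have h3 : volume (logBad n ∩ {ζ : ℂ | (-3 ≤ ζ.re ∧ ζ.re ≤ Real.log (YY n)) ∧
          (0 ≤ ζ.im ∧ ζ.im ≤ 2 * Real.pi)}) ≤ ENNReal.ofReal (a + 3 * η') := by
    have hsub : logBad n ∩ {ζ : ℂ | (-3 ≤ ζ.re ∧ ζ.re ≤ Real.log (YY n)) ∧
          (0 ≤ ζ.im ∧ ζ.im ≤ 2 * Real.pi)} ⊆
        (logBad n ∩ {ζ : ℂ | (-3 ≤ ζ.re ∧ ζ.re ≤ R) ∧ (0 ≤ ζ.im ∧ ζ.im ≤ 2 * Real.pi)}) ∪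
        (logBad n ∩ {ζ : ℂ | (R ≤ ζ.re ∧ ζ.re ≤ Real.log (YY n)) ∧
          (0 ≤ ζ.im ∧ ζ.im ≤ 2 * Real.pi)}) := by
      rintro ζ ⟨hζ, ⟨h4, h5⟩, h6⟩
      rcases le_total ζ.re R with h | h
      · exact Or.inl ⟨hζ, ⟨h4, h⟩, h6⟩
      · exact Or.inr ⟨hζ, ⟨h, h5⟩, h6⟩
    refine (measure_mono hsub).trans ((measure_union_le _ _).trans ?_)
    calc _ ≤ (ENNReal.ofReal a + ENNReal.ofReal η') + (ENNReal.ofReal η' + ENNReal.ofReal η') := by
          rw [← haE]
          gcongr
          refine h2.trans ?_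
          gcongr
      _ = ENNReal.ofReal (a + 3 * η') := by
          rw [← ENNReal.ofReal_add ha0 hη'0.le, ← ENNReal.ofReal_add hη'0.le hη'0.le,
            ← ENNReal.ofReal_add (by positivity) (by positivity)]
          congr 1; ring
  calc (n : ENNReal) * volume (multibrot n \ hyperbolic n) ≤
      n * (ENNReal.ofReal (1 / ((n : ℝ) - 1)) * ENNReal.ofReal (a + 3 * η') +
        volume (collar (n - 1) (YY n / n) (Real.log n / n))) := by
        gcongr
        refine (measure_mono hcov).trans ((measure_union_le _ _).trans ?_)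
        gcongr
        refine h1.trans ?_
        gcongr
    _ = ENNReal.ofReal ((n : ℝ) * (1 / ((n : ℝ) - 1)) * (a + 3 * η')) +
        n * volume (collar (n - 1) (YY n / n) (Real.log n / n)) := by
        have h4 : 0 ≤ 1 / ((n : ℝ) - 1) := by
          apply div_nonneg zero_le_one; linarith
        rw [mul_add, ENNReal.ofReal_mul (by positivity), ENNReal.ofReal_mul hn0.le,
          ENNReal.ofReal_natCast, mul_assoc]
    _ ≤ ENNReal.ofReal ((n : ℝ) * (1 / ((n : ℝ) - 1)) * (a + 3 * η')) + ENNReal.ofReal η' := by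
        gcongr
        exact hc
    _ = ENNReal.ofReal ((n : ℝ) * (1 / ((n : ℝ) - 1)) * (a + 3 * η') + η') := by
        have h4 : 0 ≤ 1 / ((n : ℝ) - 1) := by
          apply div_nonneg zero_le_one; linarith
        rw [← ENNReal.ofReal_add (by positivity) hη'0.le]
    _ ≤ ENNReal.ofReal (a + η) := ENNReal.ofReal_le_ofReal hf
    _ = volume expStrip + ENNReal.ofReal η := by
        rw [haE, ENNReal.ofReal_add ha0 hη.le]

/-- The upper limit. -/
theorem limsup_le : limsup (fun n : ℕ => (n : ENNReal) * volume (multibrot n \ hyperbolic n)) atTop ≤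
    volume expStrip := by
  apply ENNReal.le_of_forall_pos_le_add
  intro ε hε _
  have h := eventually_le (η := ε) (by exact_mod_cast hε)
  rw [ENNReal.ofReal_coe_nnreal] at h
  exact Filter.limsup_le_of_le (by isBoundedDefault) h

lemma volume_bad_lt_top {n : ℕ} (hn : 2 ≤ n) :
    volume (multibrot n \ hyperbolic n) ≤ ENNReal.ofReal (4 * Real.pi) := by
  have hsub : multibrot n \ hyperbolic n ⊆ closedBall 0 2 := by
    rintro c ⟨hc, -⟩
    have h1 := Pool.Agent.LeadMultibrot.norm_pow_le_two hn hc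
    rw [mem_closedBall_zero_iff]
    by_contra hlt
    rw [not_le] at hlt
    have h2 : (2 : ℝ) ^ (n - 1) < ‖c‖ ^ (n - 1) := pow_lt_pow_left₀ hlt (by norm_num) (by omega)
    have h3 : (2 : ℝ) ^ 1 ≤ 2 ^ (n - 1) := pow_le_pow_right₀ (by norm_num) (by omega)
    linarith
  refine (measure_mono hsub).trans ?_
  rw [volume_closedBall_eq _ (by norm_num)]
  apply ENNReal.ofReal_le_ofReal
  linarith

/-- The area is `O(1 / n)`. -/
theorem exists_const : ∃ C : ℝ, 0 < C ∧ ∀ n : ℕ, 2 ≤ n →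
    volume (multibrot n \ hyperbolic n) ≤ ENNReal.ofReal (C / n) := by
  set a : ℝ := (volume expStrip).toReal with ha
  have ha0 : 0 ≤ a := ENNReal.toReal_nonneg
  have haE : volume expStrip = ENNReal.ofReal a := by
    rw [ha, ENNReal.ofReal_toReal volume_expStrip_lt.ne]
  obtain ⟨N, hN⟩ := (eventually_le one_pos).exists_forall_of_atTop
  have hpi := Real.pi_pos
  refine ⟨max (a + 1) (4 * Real.pi * (N + 1)), lt_of_lt_of_le (by positivity) (le_max_right _ _),
    fun n hn => ?_⟩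
  have hn0 : (0 : ℝ) < n := by exact_mod_cast (by omega : 0 < n)
  rcases le_or_gt N n with h | h
  · have h1 := hN n h
    rw [haE, ← ENNReal.ofReal_add ha0 zero_le_one] at h1
    have h2 : volume (multibrot n \ hyperbolic n) ≤ ENNReal.ofReal (a + 1) / n := by
      rw [ENNReal.le_div_iff_mul_le (Or.inl (by simpa using (by omega : n ≠ 0)))
        (Or.inl (ENNReal.natCast_ne_top n)), mul_comm]
      exact h1
    refine h2.trans ?_
    rw [ENNReal.ofReal_div_of_pos hn0, ENNReal.ofReal_natCast]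
    gcongr
    exact le_max_left _ _
  · refine (volume_bad_lt_top hn).trans (ENNReal.ofReal_le_ofReal ?_)
    rw [le_div_iff₀ hn0]
    have h1 : (n : ℝ) ≤ N + 1 := by
      have : (n : ℝ) < N := by exact_mod_cast h
      linarith
    calc 4 * Real.pi * n ≤ 4 * Real.pi * (N + 1) := by gcongr
      _ ≤ _ := le_max_right _ _

end Pool.Agent.helper48.EL
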