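import Pool.Agent.helper48.EL.Half
import Pool.Agent.helper48.EL.Final

/-!
# The area of `M_n` outside of the main component is asymptotic to `π log n / n`
-/

set_option autoImplicit false

open Set Filter MeasureTheory Topology

namespace Pool.Agent.helper48.EL

open Pool.Agent.helper16.Multibrot

lemma half_subset {n : ℕ} (hn : 2 ≤ n) {Y η : ℝ} (hY : 3 ≤ Y) (hη0 : 0 < η) (hη : η ≤ 1)
    (hL : 32 * Real.log n ≤ η * Y) (hL16 : 16 * (Real.log n / n) ≤ 1) :
    halfAnn (n - 1) (Y / n) η (-η) ⊆ multibrot n \ mainComponent n := by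
  have hn2 : (2 : ℝ) ≤ n := by exact_mod_cast hn
  have hn0 : (0 : ℝ) < n := by linarith
  set L : ℝ := Real.log n / n with hLdef
  have hlogn : 0 < Real.log n := Real.log_pos (by linarith)
  have hL0 : 0 < L := by positivity
  have hLY : 32 * L ≤ η * (Y / n) := by
    rw [hLdef, ← mul_div_assoc, ← mul_div_assoc]
    gcongr
  rintro c ⟨⟨h1, h2⟩, hre⟩
  have hnorm : ‖c ^ (n - 1)‖ = ‖c‖ ^ (n - 1) := norm_pow _ _
  have hreg : ‖1 + c ^ (n - 1)‖ ≤ 1 - 16 * L := by
    apply le_of_sq_le_sq _ (by linarith)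
    rw [Complex.sq_norm, Complex.normSq_apply]
    have h4 : ‖c ^ (n - 1)‖ * ‖c ^ (n - 1)‖ =
        (c ^ (n - 1)).re * (c ^ (n - 1)).re + (c ^ (n - 1)).im * (c ^ (n - 1)).im := by
      rw [Complex.norm_mul_self_eq_normSq, Complex.normSq_apply]
    simp only [Complex.add_re, Complex.add_im, Complex.one_re, Complex.one_im]
    rw [hnorm] at h4
    set ρ : ℝ := ‖c‖ ^ (n - 1) with hρ
    have h5 : 32 * L ≤ η * ρ := hLY.trans (by gcongr)
    have h6 : ρ * ρ ≤ η * ρ := mul_le_mul_of_nonneg_right h2 (by positivity)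
    nlinarith
  refine ⟨?_, ?_⟩
  · exact region_two_mem hn (l := c ^ (n - 1)) (by rw [hnorm]; linarith) hreg rfl
  · rintro ⟨z, hz, hd⟩
    have h5 := main_bound hn hz hd
    have h6 : 3 / (n : ℝ) ≤ Y / n := by gcongr
    linarith

lemma subset_half {n : ℕ} (hn : 2 ≤ n) {Y η : ℝ} (hY : 1 ≤ Y)
    (hL : 5 * Real.log n ≤ η * Y) (hη0 : 0 < η) (hL40 : Real.log n / n ≤ 1 / 40) :
    multibrot n \ mainComponent n ⊆ annulus (n - 1) (1 / (8 * (n : ℝ))) (Y / n) ∪
      halfAnn (n - 1) (Y / n) 2 η := by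
  have hn2 : (2 : ℝ) ≤ n := by exact_mod_cast hn
  have hn0 : (0 : ℝ) < n := by linarith
  set L : ℝ := Real.log n / n with hLdef
  have hlogn : 0 < Real.log n := Real.log_pos (by linarith)
  have hL0 : 0 < L := by positivity
  have hLY : 5 * L ≤ η * (Y / n) := by
    rw [hLdef, ← mul_div_assoc, ← mul_div_assoc]
    gcongr
  rintro c ⟨hM, hH⟩
  have h1 : 1 / (8 * (n : ℝ)) < ‖c‖ ^ (n - 1) := by
    by_contra hcon
    exact hH (main_small hn (not_lt.mp hcon))
  have h2 : ‖c‖ ^ (n - 1) ≤ 2 := Pool.Agent.LeadMultibrot.norm_pow_le_two hn hM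
  rcases le_or_gt (‖c‖ ^ (n - 1)) (Y / n) with h | h
  · exact Or.inl ⟨h1, h⟩
  · refine Or.inr ⟨⟨h, h2⟩, ?_⟩
    have h3 : 1 / (n : ℝ) ≤ ‖c‖ ^ (n - 1) := by
      refine le_trans ?_ h.le
      gcongr
    have h4 := norm_one_add_le hn hM h3 hL40
    have h5 : ‖1 + c ^ (n - 1)‖ ^ 2 ≤ (1 + 4 * L) ^ 2 := pow_le_pow_left₀ (norm_nonneg _) h4 2
    rw [Complex.sq_norm, Complex.normSq_apply] at h5
    simp only [Complex.add_re, Complex.add_im, Complex.one_re, Complex.one_im] at h5
    have h6 : 5 * L ≤ η * ‖c‖ ^ (n - 1) := hLY.trans (by gcongr)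
    have h7 : L * L ≤ 1 / 40 * L := mul_le_mul_of_nonneg_right hL40 hL0.le
    nlinarith [sq_nonneg (c ^ (n - 1)).re, sq_nonneg (c ^ (n - 1)).im]

lemma tendsto_n_div : Tendsto (fun n : ℕ => (n : ℝ) / ((n - 1 : ℕ) : ℝ)) atTop (𝓝 1) := by
  have h2 : Tendsto (fun x : ℝ => x / (x - 1)) atTop (𝓝 1) := by
    have h3 : Tendsto (fun x : ℝ => 1 + (x - 1)⁻¹) atTop (𝓝 (1 + 0)) :=
      tendsto_const_nhds.add (tendsto_inv_atTop_zero.comp
        (tendsto_atTop_add_const_right _ (-1) tendsto_id))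
    rw [add_zero] at h3
    refine h3.congr' ?_
    filter_upwards [eventually_gt_atTop (1 : ℝ)] with x hx
    have : x - 1 ≠ 0 := by linarith
    field_simp
    ring
  refine (h2.comp tendsto_natCast_atTop_atTop).congr' ?_
  filter_upwards [eventually_ge_atTop 1] with n hn
  simp only [Function.comp]
  rw [Nat.cast_sub hn, Nat.cast_one]

lemma tendsto_log_div : Tendsto (fun n : ℕ => Real.log n / n) atTop (𝓝 0) := by
  have h4 : Tendsto (fun x : ℝ => Real.log x / x) atTop (𝓝 0) :=
    Real.isLittleO_log_id_atTop.tendsto_div_nhds_zero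
  exact h4.comp tendsto_natCast_atTop_atTop

lemma tendsto_ar {a b : ℕ → ℝ} {α β : ℝ}
    (ha : Tendsto (fun n : ℕ => Real.log (a n) / Real.log n) atTop (𝓝 α))
    (hb : Tendsto (fun n : ℕ => Real.log (b n) / Real.log n) atTop (𝓝 β)) :
    Tendsto (fun n : ℕ => (n : ℝ) / Real.log n * ar (n - 1) (a n) (b n)) atTop
      (𝓝 (2 * Real.pi * (β - α))) := by
  have hsmall : ∀ {a : ℕ → ℝ} {α : ℝ},
      Tendsto (fun n : ℕ => Real.log (a n) / Real.log n) atTop (𝓝 α) →
      Tendsto (fun n : ℕ => Real.exp (2 * Real.log (a n) / ((n - 1 : ℕ) : ℝ))) atTop (𝓝 1) := by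
    intro a α h
    have h1 : Tendsto (fun n : ℕ => 2 * ((Real.log (a n) / Real.log n) *
        ((Real.log n / n) * ((n : ℝ) / ((n - 1 : ℕ) : ℝ))))) atTop (𝓝 (2 * (α * (0 * 1)))) :=
      (h.mul (tendsto_log_div.mul tendsto_n_div)).const_mul 2
    rw [zero_mul, mul_zero, mul_zero] at h1
    have h2 := (Real.continuous_exp.tendsto 0).comp h1
    rw [Real.exp_zero] at h2
    refine h2.congr' ?_
    filter_upwards [eventually_ge_atTop 2] with n hn
    have hn1 : (1 : ℝ) < n := by exact_mod_cast (by omega : 1 < n)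
    have hl : Real.log n ≠ 0 := (Real.log_pos hn1).ne'
    simp only [Function.comp]
    congr 1
    field_simp
  have hmain : Tendsto (fun n : ℕ => Real.pi * ((n : ℝ) / Real.log n *
      (2 * Real.log (b n) / ((n - 1 : ℕ) : ℝ) - 2 * Real.log (a n) / ((n - 1 : ℕ) : ℝ)))) atTop
      (𝓝 (2 * Real.pi * (β - α))) := by
    have h1 : Tendsto (fun n : ℕ => Real.pi * (2 * ((Real.log (b n) / Real.log n -
        Real.log (a n) / Real.log n) * ((n : ℝ) / ((n - 1 : ℕ) : ℝ))))) atTop
        (𝓝 (Real.pi * (2 * ((β - α) * 1)))) :=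
      (((hb.sub ha).mul tendsto_n_div).const_mul 2).const_mul _
    rw [show Real.pi * (2 * ((β - α) * 1)) = 2 * Real.pi * (β - α) by ring] at h1
    refine h1.congr' ?_
    filter_upwards [eventually_ge_atTop 2] with n hn
    have hn1 : (1 : ℝ) < n := by exact_mod_cast (by omega : 1 < n)
    have hl : Real.log n ≠ 0 := (Real.log_pos hn1).ne'
    have hn2 : ((n - 1 : ℕ) : ℝ) ≠ 0 := by
      have : 0 < n - 1 := by omega
      positivity
    field_simp
  have hlo := (hsmall ha).mul hmain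
  have hhi := (hsmall hb).mul hmain
  rw [one_mul] at hlo hhi
  refine tendsto_of_tendsto_of_tendsto_of_le_of_le' hlo hhi ?_ ?_
  · filter_upwards [eventually_ge_atTop 2] with n hn
    have hn1 : (1 : ℝ) < n := by exact_mod_cast (by omega : 1 < n)
    have hl : 0 < Real.log n := Real.log_pos hn1
    have hpi := Real.pi_pos
    rw [ar, rad_sq, rad_sq]
    have h := le_exp_sub (2 * Real.log (b n) / ((n - 1 : ℕ) : ℝ))
      (2 * Real.log (a n) / ((n - 1 : ℕ) : ℝ))
    have h0 : 0 ≤ Real.pi * ((n : ℝ) / Real.log n) := by positivity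
    nlinarith [mul_le_mul_of_nonneg_left h h0]
  · filter_upwards [eventually_ge_atTop 2] with n hn
    have hn1 : (1 : ℝ) < n := by exact_mod_cast (by omega : 1 < n)
    have hl : 0 < Real.log n := Real.log_pos hn1
    have hpi := Real.pi_pos
    rw [ar, rad_sq, rad_sq]
    have h := exp_sub_le (2 * Real.log (b n) / ((n - 1 : ℕ) : ℝ))
      (2 * Real.log (a n) / ((n - 1 : ℕ) : ℝ))
    have h0 : 0 ≤ Real.pi * ((n : ℝ) / Real.log n) := by positivity
    nlinarith [mul_le_mul_of_nonneg_left h h0]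

lemma tendsto_log_const (x : ℝ) : Tendsto (fun n : ℕ => Real.log x / Real.log n) atTop (𝓝 0) :=
  tendsto_const_nhds.div_atTop (Real.tendsto_log_atTop.comp tendsto_natCast_atTop_atTop)

lemma tendsto_log_y : Tendsto (fun n : ℕ => Real.log (Real.log n ^ 4 / n) / Real.log n) atTop
    (𝓝 (-1)) := by
  have h4 : Tendsto (fun x : ℝ => Real.log x / x) atTop (𝓝 0) :=
    Real.isLittleO_log_id_atTop.tendsto_div_nhds_zero
  have h1 : Tendsto (fun n : ℕ => 4 * (Real.log (Real.log n) / Real.log n) - 1) atTop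
      (𝓝 (4 * 0 - 1)) :=
    ((h4.comp (Real.tendsto_log_atTop.comp tendsto_natCast_atTop_atTop)).const_mul 4).sub_const 1
  rw [show (4 : ℝ) * 0 - 1 = -1 by ring] at h1
  refine h1.congr' ?_
  filter_upwards [eventually_ge_atTop 2] with n hn
  have hn1 : (1 : ℝ) < n := by exact_mod_cast (by omega : 1 < n)
  have hl : 0 < Real.log n := Real.log_pos hn1
  rw [Real.log_div (by positivity) (by positivity), Real.log_pow]
  field_simp
  push_cast
  ring

lemma tendsto_log_eighth : Tendsto (fun n : ℕ => Real.log (1 / (8 * (n : ℝ))) / Real.log n) atTop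
    (𝓝 (-1)) := by
  have h1 := ((tendsto_log_const 8).neg).sub_const 1
  rw [show (-(0 : ℝ)) - 1 = -1 by ring] at h1
  refine h1.congr' ?_
  filter_upwards [eventually_ge_atTop 2] with n hn
  have hn1 : (1 : ℝ) < n := by exact_mod_cast (by omega : 1 < n)
  have hl : 0 < Real.log n := Real.log_pos hn1
  rw [one_div, Real.log_inv, Real.log_mul (by norm_num) (by positivity)]
  field_simp
  ring

/-- eventual numerical facts. -/
lemma eventually_facts {η : ℝ} (hη : 0 < η) : ∀ᶠ n : ℕ in atTop,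
    3 ≤ Real.log n ^ 4 ∧ 32 * Real.log n ≤ η * Real.log n ^ 4 ∧ Real.log n / n ≤ 1 / 40 ∧
    Real.log n ^ 4 / n ≤ η ∧ Real.log n ^ 4 / n ≤ 2 := by
  have hlog : Tendsto (fun n : ℕ => Real.log n) atTop atTop :=
    Real.tendsto_log_atTop.comp tendsto_natCast_atTop_atTop
  have hy : Tendsto (fun n : ℕ => Real.log n ^ 4 / n) atTop (𝓝 0) := by
    have h4 : Tendsto (fun x : ℝ => Real.log x ^ 4 / x) atTop (𝓝 0) :=
      (Real.isLittleO_pow_log_id_atTop (n := 4)).tendsto_div_nhds_zero
    exact h4.comp tendsto_natCast_atTop_atTop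
  filter_upwards [hlog.eventually_ge_atTop (3 + 32 / η), tendsto_log_div.eventually_le_const
    (by norm_num : (0 : ℝ) < 1 / 40), hy.eventually_le_const hη,
    hy.eventually_le_const (by norm_num : (0 : ℝ) < 2)] with n h1 h2 h3 h4
  have h5 : 0 < 32 / η := by positivity
  set l := Real.log n with hl
  have hl3 : 3 ≤ l := by linarith
  refine ⟨?_, ?_, h2, h3, h4⟩
  · calc (3 : ℝ) ≤ 3 ^ 4 := by norm_num
      _ ≤ l ^ 4 := by gcongr
  · have h6 : 32 ≤ η * l := by
      have : 32 / η ≤ l := by linarith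
      rw [div_le_iff₀ hη] at this; linarith
    have h7 : l ≤ l ^ 3 := by
      calc l = l ^ 1 := (pow_one l).symm
        _ ≤ l ^ 3 := pow_le_pow_right₀ (by linarith) (by norm_num)
    calc 32 * l ≤ (η * l) * l := by gcongr
      _ ≤ (η * l) * l ^ 3 := by gcongr
      _ = η * l ^ 4 := by ring

/-- The area of `M_n` outside of the main component is asymptotic to `π log n / n`. -/
theorem tendsto_outside : Tendsto (fun n : ℕ => ENNReal.ofReal ((n : ℝ) / Real.log n) *
    volume (multibrot n \ mainComponent n)) atTop (𝓝 (ENNReal.ofReal Real.pi)) := by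
  have hpi := Real.pi_pos
  have hlow : ∀ η : ℝ, 0 < η → η < 1 → ∀ᶠ n : ℕ in atTop,
      ENNReal.ofReal ((1 - Real.sqrt η) * ((n : ℝ) / Real.log n *
        ar (n - 1) (Real.log n ^ 4 / n) η) / 2) ≤
      ENNReal.ofReal ((n : ℝ) / Real.log n) * volume (multibrot n \ mainComponent n) := by
    intro η hη hη1
    filter_upwards [eventually_facts hη, eventually_ge_atTop 2] with n ⟨h1, h2, h3, h4, h5⟩ hn
    have hn1 : (1 : ℝ) < n := by exact_mod_cast (by omega : 1 < n)
    have hl : 0 < Real.log n := Real.log_pos hn1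
    have hsub := half_subset hn h1 hη hη1.le h2 (by linarith)
    have hpos : 0 < Real.log n ^ 4 / n := by positivity
    have h6 := le_two_volume_half (N := n - 1) (by omega) hpos h4 hη.le
    have hs0 : 0 ≤ Real.sqrt η := Real.sqrt_nonneg _
    have hs1 : Real.sqrt η ≤ 1 := Real.sqrt_le_one.mpr hη1.le
    have ha0 := ar_nonneg (n - 1) hpos h4
    set A := ar (n - 1) (Real.log n ^ 4 / n) η with hA
    have h7 : ENNReal.ofReal ((1 - Real.sqrt η) * A / 2) ≤
        volume (halfAnn (n - 1) (Real.log n ^ 4 / n) η (-η)) := by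
      have h8 : ENNReal.ofReal (2 * ((1 - Real.sqrt η) * A / 2)) ≤
          2 * volume (halfAnn (n - 1) (Real.log n ^ 4 / n) η (-η)) := by
        have h9 : ENNReal.ofReal A = ENNReal.ofReal (2 * ((1 - Real.sqrt η) * A / 2)) +
            ENNReal.ofReal (Real.sqrt η * A) := by
          rw [← ENNReal.ofReal_add _ (by positivity)]
          · congr 1; ring
          · have : 0 ≤ 1 - Real.sqrt η := by linarith
            positivity
        rw [h9] at h6
        exact (ENNReal.add_le_add_iff_right ENNReal.ofReal_ne_top).mp h6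
      rw [ENNReal.ofReal_mul (by norm_num)] at h8
      have h9 : ENNReal.ofReal 2 = 2 := by norm_num
      rw [h9] at h8
      exact (ENNReal.mul_le_mul_iff_right (by norm_num) (by norm_num)).mp h8
    calc ENNReal.ofReal ((1 - Real.sqrt η) * ((n : ℝ) / Real.log n * A) / 2)
        = ENNReal.ofReal ((n : ℝ) / Real.log n) * ENNReal.ofReal ((1 - Real.sqrt η) * A / 2) := by
          rw [← ENNReal.ofReal_mul (by positivity)]
          congr 1; ring
      _ ≤ _ := by
          gcongr
          exact h7.trans (measure_mono hsub)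
  have hup : ∀ η : ℝ, 0 < η → ∀ᶠ n : ℕ in atTop,
      ENNReal.ofReal ((n : ℝ) / Real.log n) * volume (multibrot n \ mainComponent n) ≤
      ENNReal.ofReal ((n : ℝ) / Real.log n * ar (n - 1) (1 / (8 * (n : ℝ))) (Real.log n ^ 4 / n) +
        (1 + 2 * Real.sqrt η) * ((n : ℝ) / Real.log n *
          ar (n - 1) (Real.log n ^ 4 / n) 2) / 2) := by
    intro η hη
    filter_upwards [eventually_facts hη, eventually_ge_atTop 2] with n ⟨h1, h2, h3, h4, h5⟩ hn
    have hn1 : (1 : ℝ) < n := by exact_mod_cast (by omega : 1 < n)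
    have hl : 0 < Real.log n := Real.log_pos hn1
    have hsub := subset_half hn (Y := Real.log n ^ 4) (by linarith) (by linarith) hη h3
    have hpos : 0 < Real.log n ^ 4 / n := by positivity
    have hpos8 : (0 : ℝ) < 1 / (8 * (n : ℝ)) := by positivity
    have hle8 : 1 / (8 * (n : ℝ)) ≤ Real.log n ^ 4 / n := by
      rw [div_le_div_iff₀ (by positivity) (by positivity)]
      nlinarith
    have h6 := two_volume_half_le (N := n - 1) (by omega) hpos h5 hη
    have ha0 := ar_nonneg (n - 1) hpos h5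
    have hb0 := ar_nonneg (n - 1) hpos8 hle8
    set A := ar (n - 1) (Real.log n ^ 4 / n) 2 with hA
    set B := ar (n - 1) (1 / (8 * (n : ℝ))) (Real.log n ^ 4 / n) with hB
    have h7 : volume (halfAnn (n - 1) (Real.log n ^ 4 / n) 2 η) ≤
        ENNReal.ofReal ((1 + 2 * Real.sqrt η) * A / 2) := by
      have h8 : 2 * volume (halfAnn (n - 1) (Real.log n ^ 4 / n) 2 η) ≤
          2 * ENNReal.ofReal ((1 + 2 * Real.sqrt η) * A / 2) := by
        have h9 : (2 : ENNReal) = ENNReal.ofReal 2 := by norm_num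
        nth_rewrite 2 [h9]
        rw [← ENNReal.ofReal_mul (by norm_num)]
        refine h6.trans (le_of_eq ?_)
        congr 1; ring
      exact (ENNReal.mul_le_mul_iff_right (by norm_num) (by norm_num)).mp h8
    calc ENNReal.ofReal ((n : ℝ) / Real.log n) * volume (multibrot n \ mainComponent n)
        ≤ ENNReal.ofReal ((n : ℝ) / Real.log n) * (ENNReal.ofReal B +
          ENNReal.ofReal ((1 + 2 * Real.sqrt η) * A / 2)) := by
          gcongr
          refine (measure_mono hsub).trans ((measure_union_le _ _).trans ?_)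
          exact add_le_add (volume_annulus_le (by omega) hpos8 hle8) h7
      _ = _ := by
          have hs0 : 0 ≤ Real.sqrt η := Real.sqrt_nonneg _
          rw [← ENNReal.ofReal_add hb0 (by positivity), ← ENNReal.ofReal_mul (by positivity)]
          congr 1; ring
  have hsqrt : Tendsto (fun η : ℝ => Real.sqrt η) (𝓝[>] 0) (𝓝 0) := by
    have := (Real.continuous_sqrt.tendsto 0).mono_left (nhdsWithin_le_nhds (s := Ioi (0 : ℝ)))
    rwa [Real.sqrt_zero] at this
  rw [tendsto_order]
  constructor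
  · intro x hx
    have hxt : x ≠ ⊤ := ne_top_of_lt hx
    have hx' : x.toReal < Real.pi := by
      rw [← ENNReal.ofReal_toReal hxt] at hx
      exact (ENNReal.ofReal_lt_ofReal_iff hpi).mp hx
    have h1 : Tendsto (fun η : ℝ => (1 - Real.sqrt η) * Real.pi) (𝓝[>] 0) (𝓝 ((1 - 0) * Real.pi)) :=
      (tendsto_const_nhds.sub hsqrt).mul_const _
    rw [sub_zero, one_mul] at h1
    have h2 : ∀ᶠ η : ℝ in 𝓝[>] 0, η < 1 := (eventually_lt_nhds one_pos).filter_mono
      nhdsWithin_le_nhds
    obtain ⟨η, h3, h4, h5⟩ := ((h1.eventually_const_lt hx').and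
      (h2.and eventually_mem_nhdsWithin)).exists
    have h5' : 0 < η := h5
    have h6 := ((tendsto_ar tendsto_log_y (tendsto_log_const η)).const_mul
      (1 - Real.sqrt η)).div_const 2
    have h7 : (1 - Real.sqrt η) * (2 * Real.pi * (0 - -1)) / 2 = (1 - Real.sqrt η) * Real.pi := by
      ring
    rw [h7] at h6
    filter_upwards [hlow η h5' h4, h6.eventually_const_lt h3] with n h8 h9
    refine lt_of_lt_of_le ?_ h8
    rw [← ENNReal.ofReal_toReal hxt]
    exact (ENNReal.ofReal_lt_ofReal_iff (lt_of_le_of_lt ENNReal.toReal_nonneg h9)).mpr h9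
  · intro x hx
    rcases eq_or_ne x ⊤ with rfl | hxt
    · obtain ⟨η, hη⟩ : ∃ η : ℝ, 0 < η := ⟨1, one_pos⟩
      filter_upwards [hup η hη] with n h8
      exact lt_of_le_of_lt h8 ENNReal.ofReal_lt_top
    have hx' : Real.pi < x.toReal := by
      rw [← ENNReal.ofReal_toReal hxt] at hx
      exact (ENNReal.ofReal_lt_ofReal_iff_of_nonneg hpi.le).mp hx
    have h1 : Tendsto (fun η : ℝ => (1 + 2 * Real.sqrt η) * Real.pi) (𝓝[>] 0)
        (𝓝 ((1 + 2 * 0) * Real.pi)) :=
      (tendsto_const_nhds.add (hsqrt.const_mul 2)).mul_const _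
    rw [mul_zero, add_zero, one_mul] at h1
    obtain ⟨η, h3, h5⟩ := ((h1.eventually_lt_const hx').and eventually_mem_nhdsWithin).exists
    have h5' : 0 < η := h5
    have h6 := (tendsto_ar tendsto_log_eighth tendsto_log_y).add
      (((tendsto_ar tendsto_log_y (tendsto_log_const 2)).const_mul
      (1 + 2 * Real.sqrt η)).div_const 2)
    have h7 : 2 * Real.pi * (-1 - -1) + (1 + 2 * Real.sqrt η) * (2 * Real.pi * (0 - -1)) / 2 =
        (1 + 2 * Real.sqrt η) * Real.pi := by
      ring
    rw [h7] at h6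
    filter_upwards [hup η h5', h6.eventually_lt_const h3] with n h8 h9
    refine lt_of_le_of_lt h8 ?_
    rw [← ENNReal.ofReal_toReal hxt]
    exact (ENNReal.ofReal_lt_ofReal_iff (hpi.trans hx')).mpr h9

/-- The proportion of the non-hyperbolic parameters outside of the main component. -/
theorem limsup_ratio_le : limsup (fun n : ℕ => ENNReal.ofReal (Real.log n) *
    (volume (multibrot n \ hyperbolic n) / volume (multibrot n \ mainComponent n))) atTop ≤
    volume expStrip / ENNReal.ofReal Real.pi := by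
  have hpi := Real.pi_pos
  have hinv : Tendsto (fun n : ℕ => (ENNReal.ofReal ((n : ℝ) / Real.log n) *
      volume (multibrot n \ mainComponent n))⁻¹) atTop (𝓝 (ENNReal.ofReal Real.pi)⁻¹) :=
    tendsto_inv_iff.mpr tendsto_outside
  have hl := hinv.limsup_eq
  have h0 : (ENNReal.ofReal Real.pi)⁻¹ ≠ 0 := ENNReal.inv_ne_zero.mpr ENNReal.ofReal_ne_top
  have htop : (ENNReal.ofReal Real.pi)⁻¹ ≠ ⊤ := ENNReal.inv_ne_top.mpr (by simpa using hpi)
  have h1 := ENNReal.limsup_mul_le' (f := atTop)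
    (u := fun n : ℕ => (n : ENNReal) * volume (multibrot n \ hyperbolic n))
    (v := fun n : ℕ => (ENNReal.ofReal ((n : ℝ) / Real.log n) *
      volume (multibrot n \ mainComponent n))⁻¹) (Or.inr (hl ▸ htop)) (Or.inr (hl ▸ h0))
  rw [hl] at h1
  rw [ENNReal.div_eq_inv_mul, mul_comm]
  refine le_trans (le_of_eq ?_) (h1.trans (mul_le_mul_left limsup_le _))
  apply limsup_congr
  filter_upwards [eventually_ge_atTop 2] with n hn
  have hn1 : (1 : ℝ) < n := by exact_mod_cast (by omega : 1 < n)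
  have hlog : 0 < Real.log n := Real.log_pos hn1
  have hn0 : (0 : ℝ) < n := by linarith
  have e1 : ENNReal.ofReal ((n : ℝ) / Real.log n) ≠ 0 := by
    simpa using div_pos hn0 hlog
  rw [Pi.mul_apply, ENNReal.mul_inv (Or.inl e1) (Or.inl ENNReal.ofReal_ne_top), div_eq_mul_inv,
    ENNReal.ofReal_div_of_pos hlog, ENNReal.inv_div (Or.inl ENNReal.ofReal_ne_top)
      (Or.inl (by simpa using hlog)), ENNReal.ofReal_natCast, div_eq_mul_inv]
  have e2 : (n : ENNReal) * (n : ENNReal)⁻¹ = 1 :=
    ENNReal.mul_inv_cancel (by simpa using (by omega : n ≠ 0)) (ENNReal.natCast_ne_top n)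
  calc ENNReal.ofReal (Real.log n) * (volume (multibrot n \ hyperbolic n) *
        (volume (multibrot n \ mainComponent n))⁻¹)
      = ((n : ENNReal) * (n : ENNReal)⁻¹) * (ENNReal.ofReal (Real.log n) *
        (volume (multibrot n \ hyperbolic n) * (volume (multibrot n \ mainComponent n))⁻¹)) := by
        rw [e2, one_mul]
    _ = _ := by ring

end Pool.Agent.helper48.EL
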