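import Pool.Agent.helper98.ILF.ExpBox
import Pool.Agent.helper16.Multibrot.Final

/-!
# The polynomials `z ^ n + c` in the coordinate where they are close to `exp z + ζ`
-/

set_option autoImplicit false

open Metric Set Filter Complex MeasureTheory Topology

namespace Pool.Agent.helper48.EL

open Pool.Agent.helper98.ILF Pool.Agent.helper16.Multibrot

/-- `z ^ n + c`, `n c ^ (n - 1) = exp ζ`, in the coordinate `w` with `z = c (1 + (w - ζ) / n)`. -/
noncomputable def pmap (n : ℕ) (ζ w : ℂ) : ℂ := ζ + Complex.exp ζ * (1 + (w - ζ) / n) ^ n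

/-- The orbit of the critical value. -/
noncomputable def porb (n : ℕ) (ζ : ℂ) : ℕ → ℂ
  | 0 => ζ
  | k + 1 => pmap n ζ (porb n ζ k)

/-- The change of coordinates. -/
noncomputable def hmap (n : ℕ) (ζ c w : ℂ) : ℂ := c * (1 + (w - ζ) / n)

lemma iterate_pmap (n : ℕ) (ζ : ℂ) (k : ℕ) : (pmap n ζ)^[k] ζ = porb n ζ k := by
  induction k with
  | zero => rfl
  | succ k ih => rw [Function.iterate_succ_apply', ih]; rfl

lemma hmap_pmap {n : ℕ} (hn : 2 ≤ n) {ζ c : ℂ} (hc : (n : ℂ) * c ^ (n - 1) = Complex.exp ζ)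
    (w : ℂ) : (hmap n ζ c w) ^ n + c = hmap n ζ c (pmap n ζ w) := by
  have hn0 : (n : ℂ) ≠ 0 := by exact_mod_cast (by omega : n ≠ 0)
  have h1 : c ^ n = c * c ^ (n - 1) := by rw [← pow_succ']; congr 1; omega
  simp only [hmap, pmap]
  rw [mul_pow, h1, ← hc]
  field_simp
  ring

lemma hmap_iterate {n : ℕ} (hn : 2 ≤ n) {ζ c : ℂ} (hc : (n : ℂ) * c ^ (n - 1) = Complex.exp ζ)
    (k : ℕ) (w : ℂ) : (fun z : ℂ => z ^ n + c)^[k] (hmap n ζ c w) =
      hmap n ζ c ((pmap n ζ)^[k] w) := by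
  induction k with
  | zero => rfl
  | succ k ih => rw [Function.iterate_succ_apply', Function.iterate_succ_apply', ih,
      hmap_pmap hn hc]

lemma crit_iterate {n : ℕ} (hn : 2 ≤ n) {ζ c : ℂ} (hc : (n : ℂ) * c ^ (n - 1) = Complex.exp ζ)
    (k : ℕ) : (fun z : ℂ => z ^ n + c)^[k + 1] 0 = c * (1 + (porb n ζ k - ζ) / n) := by
  rw [Function.iterate_succ_apply]
  have h1 : (0 : ℂ) ^ n + c = hmap n ζ c ζ := by
    simp [hmap, show n ≠ 0 by omega]
  rw [h1, hmap_iterate hn hc, iterate_pmap]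
  rfl

lemma pmap_differentiable (n : ℕ) (ζ : ℂ) : Differentiable ℂ (pmap n ζ) := by
  unfold pmap
  fun_prop

lemma param_ne_zero {n : ℕ} (hn : 2 ≤ n) {ζ c : ℂ}
    (hc : (n : ℂ) * c ^ (n - 1) = Complex.exp ζ) : c ≠ 0 := by
  rintro rfl
  rw [zero_pow (by omega), mul_zero] at hc
  exact Complex.exp_ne_zero ζ hc.symm

lemma hyperbolic_of_pmap {n : ℕ} (hn : 2 ≤ n) {ζ c : ℂ}
    (hc : (n : ℂ) * c ^ (n - 1) = Complex.exp ζ) {k : ℕ} (hk : 0 < k) {z : ℂ}
    (hz : (pmap n ζ)^[k] z = z) (hd : ‖deriv ((pmap n ζ)^[k]) z‖ < 1) : c ∈ hyperbolic n := by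
  have hn0 : (n : ℂ) ≠ 0 := by exact_mod_cast (by omega : n ≠ 0)
  have hc0 := param_ne_zero hn hc
  set f : ℂ → ℂ := fun w : ℂ => w ^ n + c with hf
  have hfd : Differentiable ℂ f := by rw [hf]; fun_prop
  refine ⟨hmap n ζ c z, k, hk, ?_, ?_⟩
  · rw [hmap_iterate hn hc, hz]
  · have hh : ∀ w, HasDerivAt (hmap n ζ c) (c / n) w := by
      intro w
      have h1 : HasDerivAt (fun w : ℂ => c * (1 + (w - ζ) / n)) (c * (1 / n)) w :=
        ((((hasDerivAt_id w).sub_const ζ).div_const (n : ℂ)).const_add 1).const_mul c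
      rw [mul_one_div] at h1
      exact h1
    have h1 : HasDerivAt (f^[k] ∘ hmap n ζ c) (deriv (f^[k]) (hmap n ζ c z) * (c / n)) z :=
      HasDerivAt.comp z ((hfd.iterate k) _).hasDerivAt (hh z)
    have h2 : HasDerivAt (hmap n ζ c ∘ (pmap n ζ)^[k]) ((c / n) * deriv ((pmap n ζ)^[k]) z) z :=
      HasDerivAt.comp z (hh _) (((pmap_differentiable n ζ).iterate k) z).hasDerivAt
    have h3 : f^[k] ∘ hmap n ζ c = hmap n ζ c ∘ (pmap n ζ)^[k] := by
      ext w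
      exact hmap_iterate hn hc k w
    rw [h3] at h1
    have h4 := h1.unique h2
    have h5 : deriv (f^[k]) (hmap n ζ c z) = deriv ((pmap n ζ)^[k]) z := by
      have h6 : c / (n : ℂ) ≠ 0 := div_ne_zero hc0 hn0
      have h7 : deriv (f^[k]) (hmap n ζ c z) * (c / n) = deriv ((pmap n ζ)^[k]) z * (c / n) := by
        rw [h4, mul_comm]
      exact mul_right_cancel₀ h6 h7
    rw [h5]
    exact hd

/-- The logarithm of the map: `pmap n ζ w - ζ = exp (w + η)` with small `η`. -/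
lemma pmap_eq_exp {n : ℕ} (hn : 1 ≤ n) {ζ w : ℂ} (hw : ‖w - ζ‖ ≤ n / 2) :
    ∃ η : ℂ, ‖η‖ ≤ ‖w - ζ‖ ^ 2 / n ∧ pmap n ζ w = ζ + Complex.exp (w + η) := by
  have hnR : (0 : ℝ) < n := by exact_mod_cast hn
  have hn0 : (n : ℂ) ≠ 0 := by exact_mod_cast (by omega : n ≠ 0)
  set x := w - ζ with hx
  set u : ℂ := x / n with hu
  have hun : ‖u‖ = ‖x‖ / n := by rw [hu, norm_div, Complex.norm_natCast]
  have hu2 : ‖u‖ ≤ 1 / 2 := by
    rw [hun, div_le_iff₀ hnR]
    linarith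
  have hne : 1 + u ≠ 0 := by
    intro h
    have : u = -1 := by linear_combination h
    rw [this, norm_neg, norm_one] at hu2
    norm_num at hu2
  refine ⟨n * (Complex.log (1 + u) - u), ?_, ?_⟩
  · rw [norm_mul, Complex.norm_natCast]
    have h1 := Complex.norm_log_one_add_sub_self_le (z := u) (by linarith)
    have h2 : (1 - ‖u‖)⁻¹ ≤ 2 := by
      rw [inv_le_comm₀ (by linarith) (by norm_num)]
      linarith
    have h3 : ‖Complex.log (1 + u) - u‖ ≤ ‖u‖ ^ 2 := by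
      have h4 : ‖u‖ ^ 2 * (1 - ‖u‖)⁻¹ / 2 ≤ ‖u‖ ^ 2 * 2 / 2 := by gcongr
      linarith
    calc (n : ℝ) * ‖Complex.log (1 + u) - u‖ ≤ n * ‖u‖ ^ 2 := by gcongr
      _ = ‖x‖ ^ 2 / n := by rw [hun]; field_simp
  · have h1 : w + n * (Complex.log (1 + u) - u) = ζ + n * Complex.log (1 + u) := by
      have h2 : (n : ℂ) * u = x := by rw [hu]; field_simp
      rw [mul_sub, h2, hx]; ring
    rw [h1, Complex.exp_add, Complex.exp_nat_mul, Complex.exp_log hne]
    rfl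

end Pool.Agent.helper48.EL
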