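import Pool.Agent.helper48.EL.StageA
import Pool.Agent.helper23.EL.M1
import Pool.Agent.helper21.EL.M3

/-!
# The area of the undecided parameters of the last stage
-/

set_option autoImplicit false

open Metric Set Filter Complex MeasureTheory Topology

namespace Pool.Agent.helper48.EL

open Pool.Agent.helper98.ILF Pool.Agent.helper16.Multibrot

/-- The parameters which are undecided in the last stage. -/
def finThin (n : ℕ) (ε x y : ℝ) (k : ℕ) : Set ℂ :=
  {ζ | ζ ∈ contSet x y k ∧
    |2 * Real.cos (orb ζ k).im + Real.exp (orb ζ k).re / n| ≤ ε}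

/-- Local estimate. -/
lemma fin_local {c : ℂ} {k : ℕ} (h : ∀ j < k, 7 ≤ (orb c j).re) (n : ℕ) {ε : ℝ} (hε : 0 ≤ ε) :
    volume {c' : ℂ | c' ∈ closedBall c (5 * (Real.exp (-rsum c k) / 20)) ∧
        |2 * Real.cos (orb c' k).im + Real.exp (orb c' k).re / n| ≤ ε} ≤
      ENNReal.ofReal (1200 * Real.sqrt ε) * volume (closedBall c (Real.exp (-rsum c k) / 20)) := by
  set m := Real.exp (rsum c k) with hm
  have hm0 : 0 < m := Real.exp_pos _
  have hmi : Real.exp (-rsum c k) = 1 / m := by rw [Real.exp_neg, one_div]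
  set N : Set ℂ := {c' : ℂ | c' ∈ closedBall c (5 * (Real.exp (-rsum c k) / 20)) ∧
        |2 * Real.cos (orb c' k).im + Real.exp (orb c' k).re / n| ≤ ε} with hN
  have hcont := continuous_orb k
  have hNm : MeasurableSet N := by
    have hc1 : Continuous fun c' : ℂ =>
        |2 * Real.cos (orb c' k).im + Real.exp (orb c' k).re / n| := by
      have h1 : Continuous fun c' : ℂ => (orb c' k).im := Complex.continuous_im.comp hcont
      have h2 : Continuous fun c' : ℂ => (orb c' k).re := Complex.continuous_re.comp hcont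
      exact ((continuous_const.mul (Real.continuous_cos.comp h1)).add
        ((Real.continuous_exp.comp h2).div_const _)).abs
    exact (isClosed_closedBall.inter (isClosed_le hc1 continuous_const)).measurableSet
  have hsub : N ⊆ closedBall c (16 * Real.exp (-rsum c k)) := by
    intro c' hc'
    refine closedBall_subset_closedBall ?_ hc'.1
    have := Real.exp_pos (-rsum c k)
    linarith
  have hcc : c ∈ closedBall c (16 * Real.exp (-rsum c k)) :=
    mem_closedBall_self (by positivity)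
  have hvi := volume_image_ge (G := fun c => orb c k) (T := N) (β := 3 / 4 * m) hNm
    (by positivity) (fun y _ => differentiable_orb k y) ((injOn_orb h).mono hsub)
    (fun y hy => by rw [deriv_orb]; exact (norm_dorb_bounds h (hsub hy)).1)
  have himg : (fun c => orb c k) '' N ⊆
      {z : ℂ | z ∈ closedBall (orb c k) (5 / 16) ∧
        |2 * Real.cos z.im + Real.exp z.re / n| ≤ ε} := by
    rintro _ ⟨c', hc', rfl⟩
    refine ⟨?_, hc'.2⟩
    have h1 := norm_orb_sub_le h hcc (hsub hc')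
    rw [mem_closedBall, dist_eq_norm]
    have h2 : ‖c' - c‖ ≤ 1 / m / 4 := by
      have := hc'.1
      rw [mem_closedBall, dist_eq_norm, hmi] at this
      linarith
    calc ‖orb c' k - orb c k‖ ≤ 5 / 4 * m * ‖c' - c‖ := h1
      _ ≤ 5 / 4 * m * (1 / m / 4) := by gcongr
      _ = 5 / 16 := by field_simp; norm_num
  have hstrip := volume_cos_strip (orb c k) n (ρ := 5 / 16) (by norm_num) (by norm_num) hε
  have hchain : ENNReal.ofReal ((3 / 4 * m) ^ 2) * volume N ≤
      ENNReal.ofReal (5 * Real.sqrt ε) :=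
    hvi.trans ((measure_mono himg).trans hstrip)
  have hpos : (0 : ℝ) < (3 / 4 * m) ^ 2 := by positivity
  have hNle : volume N ≤ ENNReal.ofReal (5 * Real.sqrt ε / (3 / 4 * m) ^ 2) := by
    rw [ENNReal.ofReal_div_of_pos hpos, ENNReal.le_div_iff_mul_le
      (Or.inl (ENNReal.ofReal_pos.2 hpos).ne') (Or.inl ENNReal.ofReal_ne_top), mul_comm]
    exact hchain
  refine hNle.trans ?_
  rw [volume_closedBall_eq _ (by positivity), ← ENNReal.ofReal_mul (by positivity), hmi]
  apply ENNReal.ofReal_le_ofReal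
  rw [div_le_iff₀ hpos]
  have hpi := Real.pi_gt_three
  have h3 : 1200 * Real.sqrt ε * (Real.pi * (1 / m / 20) ^ 2) * (3 / 4 * m) ^ 2 =
      (1200 * 9 / (400 * 16)) * (Real.pi * Real.sqrt ε) := by
    field_simp
    ring
  rw [h3]
  have h4 : 0 ≤ Real.sqrt ε := Real.sqrt_nonneg _
  have h5 : 3 * Real.sqrt ε ≤ Real.pi * Real.sqrt ε := by gcongr
  linarith

lemma volume_finThin {x : ℝ} (hx : 7 ≤ x) (y : ℝ) (k n : ℕ) {ε : ℝ} (hε : 0 ≤ ε) :
    volume (finThin n ε x y k) ≤ ENNReal.ofReal (30000 * Real.sqrt ε) := by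
  have h1 := volume_le_of_local (N := finThin n ε x y k)
    (Q := {z : ℂ | (x - 1 ≤ z.re ∧ z.re ≤ x + 2) ∧ (y - 1 ≤ z.im ∧ z.im ≤ y + 2 * Real.pi + 1)})
    (r := fun c => Real.exp (-rsum c k) / 20) (θ := ENNReal.ofReal (1200 * Real.sqrt ε)) (R := 1)
    (fun c hc => ⟨by positivity, by
      have h2 := rsum_nonneg hx hc.1 k (by omega)
      have h3 : Real.exp (-rsum c k) ≤ 1 := Real.exp_le_one_iff.2 (by linarith)
      linarith⟩)
    (fun c hc => closedBall_subset_box (by
      have h2 := rsum_nonneg hx hc.1 k (by omega)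
      have h3 : Real.exp (-rsum c k) ≤ 1 := Real.exp_le_one_iff.2 (by linarith)
      linarith) hc.1.1)
    (fun c hc => by
      have h2 := fin_local (c := c) (k := k)
        (fun j hj => seven_le_orb hx hc.1 j hj.le) n hε
      refine (measure_mono ?_).trans h2
      rintro c' ⟨hc'1, hc'2⟩
      exact ⟨hc'2, hc'1.2⟩)
  refine h1.trans ?_
  calc ENNReal.ofReal (1200 * Real.sqrt ε) * volume _ ≤
        ENNReal.ofReal (1200 * Real.sqrt ε) * ENNReal.ofReal 25 := by
        gcongr
        exact box_volume x y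
    _ = ENNReal.ofReal (30000 * Real.sqrt ε) := by
        rw [← ENNReal.ofReal_mul (by positivity)]
        congr 1
        ring

/-- The inclusion. -/
lemma logBad_box_subset {n : ℕ} {Y τ : ℝ} (hL : Lrg n Y τ) {x y : ℝ} (hx : 7 ≤ x) :
    logBad n ∩ {ζ : ℂ | ((x ≤ ζ.re ∧ ζ.re ≤ x + 1) ∧ (y ≤ ζ.im ∧ ζ.im ≤ y + 2 * Real.pi)) ∧
        ζ.re ≤ Real.log Y} ⊆
      (⋃ k : ℕ, thinSet x y k) ∪
        ⋃ k ∈ Finset.range (⌊Real.log Y⌋₊ + 1), finThin n (9 * Real.log n / Y + 30 * τ) x y k := by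
  rintro ζ ⟨⟨c, hc, hM, hH⟩, hbox, hζY⟩
  have hY1 := hL.hY1
  have hY0 : 0 < Y := by linarith
  have hζY' : Real.exp ζ.re ≤ Y := by
    rwa [← Real.le_log_iff_exp_le hY0]
  -- the stages
  set P : ℕ → Prop := fun k => ζ ∈ contSet x y k ∧ ∀ j < k, Real.exp (orb ζ j).re ≤ Y with hP
  have hP0 : P 0 := ⟨⟨hbox, fun j h1 h2 => by omega⟩, fun j hj => by omega⟩
  have hbound : ∀ k, P k → (k : ℝ) ≤ Real.log Y := fun k hk => stage_le hx hY1 hk.1 hk.2
  have hex : ∃ k, ¬ P k := by
    refine ⟨⌊Real.log Y⌋₊ + 1, fun h => ?_⟩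
    have h1 := hbound _ h
    have h2 := Nat.lt_floor_add_one (Real.log Y)
    push_cast at h1
    linarith
  classical
  have hmin := Nat.find_spec hex
  have hpos : Nat.find hex ≠ 0 := by
    intro h
    rw [h] at hmin
    exact hmin hP0
  obtain ⟨k, hk⟩ := Nat.exists_eq_succ_of_ne_zero hpos
  have hk' : P k := by
    by_contra h
    have := Nat.find_min' hex h
    omega
  rw [hk] at hmin
  by_cases hcase : Real.exp (orb ζ k).re ≤ Y
  · -- case B
    have hY' : ∀ j < k + 1, Real.exp (orb ζ j).re ≤ Y := by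
      intro j hj
      rcases Nat.lt_succ_iff_lt_or_eq.1 hj with h | rfl
      · exact hk'.2 j h
      · exact hcase
    have h1 : (orb ζ (k + 1)).re < 4 + rsum ζ (k + 1) := by
      by_contra hlt
      rw [not_lt] at hlt
      apply hmin
      refine ⟨⟨hbox, fun j hj1 hj2 => ?_⟩, hY'⟩
      rcases Nat.lt_or_ge j (k + 1) with hj | hj
      · exact hk'.1.2 j hj1 (by omega)
      · have : j = k + 1 := by omega
        rw [this]; exact hlt
    left
    rw [mem_iUnion]
    refine ⟨k, hk'.1, ?_⟩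
    rw [abs_lt]
    refine ⟨?_, h1⟩
    by_contra hlt
    rw [not_lt] at hlt
    exact hH (caseB hL hx hk'.1 hY' hlt hc)
  · right
    rw [not_le] at hcase
    simp only [mem_iUnion, Finset.mem_range]
    refine ⟨k, ?_, hk'.1, (caseA hL hx hk'.1 hk'.2 hζY' hcase.le hc hM hH).2⟩
    exact Nat.lt_succ_of_le (Nat.le_floor (hbound k hk'))

end Pool.Agent.helper48.EL
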