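import Pool.Agent.helper16.Multibrot.Final

/-!
# Half annuli, and the area of `M_n` outside of the main component
-/

set_option autoImplicit false

open Set Filter MeasureTheory Topology

namespace Pool.Agent.helper48.EL

open Pool.Agent.helper16.Multibrot

/-- the area of the annulus. -/
noncomputable def ar (N : ℕ) (a b : ℝ) : ℝ := Real.pi * (rad N b ^ 2 - rad N a ^ 2)

lemma ar_nonneg (N : ℕ) {a b : ℝ} (ha : 0 < a) (hab : a ≤ b) : 0 ≤ ar N a b := by
  have h1 := rad_mono N ha hab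
  have h2 := (rad_pos N a).le
  have h3 := Real.pi_pos
  rw [ar]
  have : rad N a ^ 2 ≤ rad N b ^ 2 := pow_le_pow_left₀ h2 h1 2
  have h4 : 0 ≤ rad N b ^ 2 - rad N a ^ 2 := by linarith
  positivity

/-- the part of the annulus with `cos (arg (c ^ N)) ≤ η`. -/
def halfAnn (N : ℕ) (a b η : ℝ) : Set ℂ := {c | c ∈ annulus N a b ∧ (c ^ N).re ≤ η * ‖c‖ ^ N}

lemma measurableSet_annulus (N : ℕ) (a b : ℝ) : MeasurableSet (annulus N a b) := by
  have hm : Measurable fun c : ℂ => ‖c‖ ^ N := by fun_prop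
  exact (measurableSet_lt measurable_const hm).inter (measurableSet_le hm measurable_const)

lemma measurableSet_halfAnn (N : ℕ) (a b η : ℝ) : MeasurableSet (halfAnn N a b η) := by
  have hm : Measurable fun c : ℂ => η * ‖c‖ ^ N := by fun_prop
  have hm1 : Measurable fun c : ℂ => (c ^ N).re := Complex.measurable_re.comp (by fun_prop)
  exact (measurableSet_annulus N a b).inter (measurableSet_le hm1 hm)

/-- the thin part. -/
def thinAnn (N : ℕ) (a b η : ℝ) : Set ℂ := {c | c ∈ annulus N a b ∧ |(c ^ N).re| ≤ η * ‖c‖ ^ N}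

lemma measurableSet_thinAnn (N : ℕ) (a b η : ℝ) : MeasurableSet (thinAnn N a b η) := by
  have hm : Measurable fun c : ℂ => η * ‖c‖ ^ N := by fun_prop
  have hm1 : Measurable fun c : ℂ => |(c ^ N).re| :=
    measurable_norm.comp (Complex.measurable_re.comp (by fun_prop))
  exact (measurableSet_annulus N a b).inter (measurableSet_le hm1 hm)

lemma volume_thinAnn {N : ℕ} (hN : 1 ≤ N) {a b η : ℝ} (ha : 0 < a) (hab : a ≤ b) (hη : 0 ≤ η) :
    volume (thinAnn N a b η) ≤ ENNReal.ofReal (Real.sqrt η * ar N a b) := by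
  have hb : 0 < b := ha.trans_le hab
  have h := volume_polar (measurableSet_thinAnn N a b η) (rad_pos N a).le (rad_mono N ha hab)
    (m := 2 * Real.pi * Real.sqrt (2 * η / 2)) (by positivity)
    (fun c hc => ⟨(lt_pow_iff hN ha (norm_nonneg c)).mp hc.1.1,
      (pow_le_iff hN hb (norm_nonneg c)).mp hc.1.2⟩) ?_
  · refine h.trans (ENNReal.ofReal_le_ofReal (le_of_eq ?_))
    rw [ar, show 2 * η / 2 = η by ring]
    ring
  · intro r hr1 hr2
    have hr0 : 0 < r := (rad_pos N a).trans hr1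
    refine (measure_mono ?_).trans (volume_angle hN (-η) (2 * η))
    rintro θ ⟨hθ, hθS⟩
    refine ⟨hθ, ?_⟩
    have h2 := hθS.2
    have hpow : ((r : ℂ) * Complex.exp (θ * Complex.I)) ^ N =
        ((r ^ N : ℝ) : ℂ) * Complex.exp (((N * θ : ℝ) : ℂ) * Complex.I) := by
      rw [mul_pow, ← Complex.exp_nat_mul]
      push_cast
      ring_nf
    have hn : ‖(r : ℂ) * Complex.exp (θ * Complex.I)‖ = r := by
      rw [norm_mul, Complex.norm_exp_ofReal_mul_I, Complex.norm_real, Real.norm_of_nonneg hr0.le,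
        mul_one]
    rw [hpow, Complex.re_ofReal_mul, Complex.exp_ofReal_mul_I_re, hn, abs_mul,
      abs_of_pos (pow_pos hr0 N), mul_comm] at h2
    have h3 := le_of_mul_le_mul_right h2 (pow_pos hr0 N)
    rw [abs_le] at h3
    exact ⟨h3.1, by linarith [h3.2]⟩

/-- rotation of the half annulus. -/
lemma exists_rot {N : ℕ} (hN : 1 ≤ N) : ∃ ζ : ℂ, ‖ζ‖ = 1 ∧ ζ ^ N = -1 := by
  obtain ⟨ζ, hζ⟩ := IsAlgClosed.exists_pow_nat_eq (-1 : ℂ) (n := N) (by omega)
  refine ⟨ζ, ?_, hζ⟩
  have : ‖ζ‖ ^ N = 1 := by rw [← norm_pow, hζ]; simp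
  exact (pow_eq_one_iff_of_nonneg (norm_nonneg _) (by omega)).mp this

lemma volume_annulus_eq {N : ℕ} (hN : 1 ≤ N) {a b : ℝ} (ha : 0 < a) (hab : a ≤ b) :
    volume (annulus N a b) = ENNReal.ofReal (ar N a b) :=
  le_antisymm (volume_annulus_le hN ha hab) (le_volume_annulus hN ha hab)

lemma le_two_volume_half {N : ℕ} (hN : 1 ≤ N) {a b η : ℝ} (ha : 0 < a) (hab : a ≤ b)
    (hη : 0 ≤ η) :
    ENNReal.ofReal (ar N a b) ≤ 2 * volume (halfAnn N a b (-η)) +
      ENNReal.ofReal (Real.sqrt η * ar N a b) := by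
  obtain ⟨ζ, hζ1, hζ2⟩ := exists_rot hN
  have hcov : annulus N a b ⊆ (halfAnn N a b (-η) ∪ {c | ζ * c ∈ halfAnn N a b (-η)}) ∪
      thinAnn N a b η := by
    intro c hc
    rcases le_or_gt (c ^ N).re (-η * ‖c‖ ^ N) with h | h
    · exact Or.inl (Or.inl ⟨hc, h⟩)
    rcases le_or_gt (η * ‖c‖ ^ N) (c ^ N).re with h' | h'
    · refine Or.inl (Or.inr ⟨?_, ?_⟩)
      · have hn : ‖ζ * c‖ = ‖c‖ := by rw [norm_mul, hζ1, one_mul]
        refine ⟨?_, ?_⟩
        · rw [hn]; exact hc.1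
        · rw [hn]; exact hc.2
      · rw [mul_pow, hζ2, norm_mul, hζ1, one_mul]
        simp only [neg_mul, one_mul, Complex.neg_re]
        linarith
    · refine Or.inr ⟨hc, ?_⟩
      rw [abs_le]
      exact ⟨by linarith, h'.le⟩
  rw [← volume_annulus_eq hN ha hab]
  refine (measure_mono hcov).trans ((measure_union_le _ _).trans ?_)
  refine add_le_add ?_ ((volume_thinAnn hN ha hab hη).trans (le_of_eq rfl))
  refine (measure_union_le _ _).trans (le_of_eq ?_)
  rw [volume_rot hζ1 _ (measurableSet_halfAnn N a b (-η)), two_mul]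

lemma two_volume_half_le {N : ℕ} (hN : 1 ≤ N) {a b η : ℝ} (ha : 0 < a) (hab : a ≤ b)
    (hη : 0 < η) :
    2 * volume (halfAnn N a b η) ≤ ENNReal.ofReal ((1 + 2 * Real.sqrt η) * ar N a b) := by
  obtain ⟨ζ, hζ1, hζ2⟩ := exists_rot hN
  have h0 := ar_nonneg N ha hab
  have hcov : halfAnn N a b η ⊆ halfAnn N a b (-η) ∪ thinAnn N a b η := by
    rintro c ⟨hc, h1⟩
    rcases le_or_gt (c ^ N).re (-η * ‖c‖ ^ N) with h | h
    · exact Or.inl ⟨hc, h⟩
    · refine Or.inr ⟨hc, ?_⟩
      rw [abs_le]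
      exact ⟨by linarith, h1⟩
  have hdisj : Disjoint (halfAnn N a b (-η)) {c | ζ * c ∈ halfAnn N a b (-η)} := by
    rw [Set.disjoint_left]
    rintro c ⟨hc, h1⟩ ⟨hc', h2⟩
    rw [mul_pow, hζ2, norm_mul, hζ1, one_mul] at h2
    simp only [neg_mul, one_mul, Complex.neg_re] at h2
    have h3 : 0 < η * ‖c‖ ^ N := mul_pos hη (ha.trans hc.1)
    linarith
  have hmeas : MeasurableSet {c | ζ * c ∈ halfAnn N a b (-η)} :=
    (measurable_const_mul ζ) (measurableSet_halfAnn N a b (-η))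
  have h2 : 2 * volume (halfAnn N a b (-η)) ≤ ENNReal.ofReal (ar N a b) := by
    rw [← volume_annulus_eq hN ha hab, two_mul]
    nth_rewrite 2 [← volume_rot hζ1 _ (measurableSet_halfAnn N a b (-η))]
    rw [← measure_union hdisj hmeas]
    apply measure_mono
    rintro c (h | h)
    · exact h.1
    · have hn : ‖ζ * c‖ = ‖c‖ := by rw [norm_mul, hζ1, one_mul]
      have h3 := h.1
      refine ⟨?_, ?_⟩
      · rw [← hn]; exact h3.1
      · rw [← hn]; exact h3.2
  calc 2 * volume (halfAnn N a b η) ≤ 2 * (volume (halfAnn N a b (-η)) +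
        ENNReal.ofReal (Real.sqrt η * ar N a b)) := by
        gcongr
        exact (measure_mono hcov).trans ((measure_union_le _ _).trans
          (add_le_add le_rfl (volume_thinAnn hN ha hab hη.le)))
    _ = 2 * volume (halfAnn N a b (-η)) + 2 * ENNReal.ofReal (Real.sqrt η * ar N a b) := by
        rw [mul_add]
    _ ≤ ENNReal.ofReal (ar N a b) + 2 * ENNReal.ofReal (Real.sqrt η * ar N a b) := by gcongr
    _ = ENNReal.ofReal ((1 + 2 * Real.sqrt η) * ar N a b) := by
        have h3 : (2 : ENNReal) = ENNReal.ofReal 2 := by norm_num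
        rw [h3, ← ENNReal.ofReal_mul (by norm_num), ← ENNReal.ofReal_add h0 (by positivity)]
        congr 1; ring

end Pool.Agent.helper48.EL
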