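import Pool.Agent.helper48.EL.Conj

/-!
# Comparison of the critical orbits of `z ^ n + c` and of `exp z + ζ`
-/

set_option autoImplicit false

open Metric Set Filter Complex MeasureTheory Topology

namespace Pool.Agent.helper48.EL

open Pool.Agent.helper98.ILF Pool.Agent.helper16.Multibrot

lemma rsum_mono_of_pos {ζ : ℂ} {m : ℕ} (hpos : ∀ j < m, 7 ≤ (orb ζ j).re) :
    ∀ j ≤ m, rsum ζ j ≤ rsum ζ m := by
  intro j hj
  rw [rsum, rsum]
  apply Finset.sum_le_sum_of_subset_of_nonneg
  · exact Finset.range_subset_range.2 hj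
  · intro i hi _
    have := hpos i (Finset.mem_range.1 hi)
    linarith

lemma norm_orb_succ_sub (ζ : ℂ) (j : ℕ) : ‖orb ζ (j + 1) - ζ‖ = Real.exp (orb ζ j).re := by
  simp only [orb, add_sub_cancel_right, Complex.norm_exp]

lemma norm_orb_sub_le' {ζ : ℂ} {k : ℕ} {Y : ℝ} (hY0 : 0 ≤ Y)
    (hY : ∀ j < k, Real.exp (orb ζ j).re ≤ Y) : ∀ j ≤ k, ‖orb ζ j - ζ‖ ≤ Y := by
  intro j hj
  rcases Nat.eq_zero_or_pos j with rfl | h
  · simpa [orb] using hY0
  · obtain ⟨i, rfl⟩ : ∃ i, j = i + 1 := ⟨j - 1, by omega⟩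
    rw [norm_orb_succ_sub]
    exact hY i (by omega)

/-- The orbits of the polynomial and of the exponential stay close as long as the points are
small compared with `n`. -/
lemma porb_close {n : ℕ} (hn : 1 ≤ n) {ζ : ℂ} {m : ℕ} {Y η : ℝ} (hY0 : 0 ≤ Y)
    (hpos : ∀ j < m, 7 ≤ (orb ζ j).re) (hY : ∀ j < m, Real.exp (orb ζ j).re ≤ Y)
    (hnY : 2 * (Y + 1) ≤ n) (hη : (Y + 1) ^ 2 / n ≤ η)
    (hη2 : η * Real.exp (rsum ζ m) ≤ 1 / 4) :
    ∀ j ≤ m, ‖porb n ζ j - orb ζ j‖ + η ≤ 2 * (Real.exp (rsum ζ j) * η) := by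
  have hnR : (0 : ℝ) < n := by exact_mod_cast hn
  have hη0 : 0 < η := lt_of_lt_of_le (by positivity) hη
  have hB := exp_seven
  intro j
  induction j using Nat.strong_induction_on with
  | _ j ih =>
    intro hj
    have hb := growth_bound (E := fun i => Real.exp (orb ζ i).re)
      (e := fun i => ‖porb n ζ i - orb ζ i‖ + η) (B := Real.exp 7) (D := 1 / 4) (t := η) (k := j)
      (by linarith) (by norm_num) (by linarith)
      (fun i hi => Real.exp_le_exp.2 (hpos i (by omega))) hη0.le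
      (by simp [porb, orb]) (by
        intro i hi
        have hi1 := ih i hi (by omega)
        have hi2 : Real.exp (rsum ζ i) * η ≤ 1 / 4 := by
          have h1 := rsum_mono_of_pos hpos i (by omega)
          have h2 := Real.exp_le_exp.2 h1
          have h3 : Real.exp (rsum ζ i) * η ≤ Real.exp (rsum ζ m) * η := by gcongr
          linarith
        have hi3 : ‖porb n ζ i - orb ζ i‖ ≤ 1 := by linarith
        have hi4 : ‖orb ζ i - ζ‖ ≤ Y := norm_orb_sub_le' hY0 hY i (by omega)
        have hi5 : ‖porb n ζ i - ζ‖ ≤ Y + 1 := by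
          have h1 : porb n ζ i - ζ = (porb n ζ i - orb ζ i) + (orb ζ i - ζ) := by ring
          rw [h1]
          have := norm_add_le (porb n ζ i - orb ζ i) (orb ζ i - ζ)
          linarith
        obtain ⟨η', hη', he⟩ := pmap_eq_exp hn (ζ := ζ) (w := porb n ζ i) (by linarith)
        have hη'' : ‖η'‖ ≤ η := by
          refine hη'.trans (le_trans ?_ hη)
          gcongr
        have h1 : porb n ζ (i + 1) - orb ζ (i + 1) =
            Complex.exp (porb n ζ i + η') - Complex.exp (orb ζ i) := by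
          simp only [porb, orb]
          rw [he]; ring
        have h2 := norm_exp_sub_exp_le (porb n ζ i + η') (orb ζ i)
        have h3 : ‖porb n ζ i + η' - orb ζ i‖ ≤ ‖porb n ζ i - orb ζ i‖ + η := by
          have h4 : porb n ζ i + η' - orb ζ i = (porb n ζ i - orb ζ i) + η' := by ring
          rw [h4]
          have := norm_add_le (porb n ζ i - orb ζ i) η'
          linarith
        rw [h1]
        have h5 : Real.exp (orb ζ i).re * ‖porb n ζ i + η' - orb ζ i‖ *
            Real.exp ‖porb n ζ i + η' - orb ζ i‖ ≤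
            Real.exp (orb ζ i).re * (‖porb n ζ i - orb ζ i‖ + η) *
            Real.exp (‖porb n ζ i - orb ζ i‖ + η) := by gcongr
        linarith) (fun i => by positivity) (by
        rw [prod_exp_eq]
        have h1 := Real.exp_le_exp.2 (rsum_mono_of_pos hpos j hj)
        calc η * Real.exp (rsum ζ j) ≤ η * Real.exp (rsum ζ m) := by gcongr
          _ ≤ 1 / 4 := hη2)
    have h1 := (hb j le_rfl).1
    rw [prod_exp_eq] at h1
    exact h1

/-- One step of the comparison of two orbits of the polynomial. -/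
lemma pmap_sub_pmap_le {n : ℕ} (hn : 1 ≤ n) {ζ p y : ℂ} {κ : ℝ}
    (hκ : 1 ≤ κ * (1 - ‖p - ζ‖ / n)) (hp : ‖p - ζ‖ < n) :
    ‖pmap n ζ y - pmap n ζ p‖ ≤
      ‖pmap n ζ p - ζ‖ * (κ * ‖y - p‖) * Real.exp (κ * ‖y - p‖) := by
  have hnR : (0 : ℝ) < n := by exact_mod_cast hn
  have hn0 : (n : ℂ) ≠ 0 := by exact_mod_cast (by omega : n ≠ 0)
  set x := p - ζ with hx
  have hlt : ‖x‖ / n < 1 := by rw [div_lt_one hnR]; exact hp
  have hA : 1 - ‖x‖ / n ≤ ‖1 + x / n‖ := by
    have h1 := norm_sub_norm_le (1 : ℂ) (-(x / n))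
    rw [norm_neg, norm_one, norm_div, Complex.norm_natCast, sub_neg_eq_add] at h1
    exact h1
  have hA0 : 0 < ‖1 + x / n‖ := by linarith
  have hA1 : (1 + x / n : ℂ) ≠ 0 := norm_pos_iff.1 hA0
  set u : ℂ := (y - p) / (n * (1 + x / n)) with hu
  have h1 : (1 + (y - ζ) / n : ℂ) = (1 + x / n) * (1 + u) := by
    have h0 : ∀ A : ℂ, A ≠ 0 → A * ((y - p) / (n * A)) = (y - p) / n := by
      intro A hA
      field_simp
    rw [mul_add, mul_one, hu, h0 _ hA1, hx]
    ring
  have h2 : pmap n ζ y - pmap n ζ p = (pmap n ζ p - ζ) * ((1 + u) ^ n - 1) := by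
    have h3 : pmap n ζ p = ζ + Complex.exp ζ * (1 + x / n) ^ n := rfl
    have h4 : pmap n ζ y = ζ + Complex.exp ζ * (1 + (y - ζ) / n) ^ n := rfl
    rw [h3, h4, h1, mul_pow]
    ring
  have hun : n * ‖u‖ ≤ κ * ‖y - p‖ := by
    rw [hu, norm_div, norm_mul, Complex.norm_natCast]
    have h3 : (n : ℝ) * (‖y - p‖ / (n * ‖1 + x / n‖)) = ‖y - p‖ / ‖1 + x / n‖ := by
      field_simp
    rw [h3, div_le_iff₀ hA0]
    have hκ0 : 0 ≤ κ := by
      by_contra hneg
      rw [not_le] at hneg
      have : 0 < 1 - ‖x‖ / n := by linarith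
      nlinarith
    calc ‖y - p‖ ≤ (κ * (1 - ‖x‖ / n)) * ‖y - p‖ := le_mul_of_one_le_left (norm_nonneg _) hκ
      _ ≤ (κ * ‖1 + x / n‖) * ‖y - p‖ := by gcongr
      _ = _ := by ring
  have hpow : ‖(1 + u) ^ n - 1‖ ≤ (κ * ‖y - p‖) * Real.exp (κ * ‖y - p‖) := by
    have h3 := Pool.Agent.LeadMultibrot.norm_pow_sub_one_le (1 + u) n
    rw [add_sub_cancel_left] at h3
    have h4 : (1 + ‖u‖) ^ n ≤ Real.exp (n * ‖u‖) := by
      rw [Real.exp_nat_mul]
      apply pow_le_pow_left₀ (by positivity)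
      have := Real.add_one_le_exp ‖u‖
      linarith
    have h5 : Real.exp (n * ‖u‖) ≤ Real.exp (κ * ‖y - p‖) := Real.exp_le_exp.2 hun
    have h6 : ∀ a : ℝ, Real.exp a - 1 ≤ a * Real.exp a := by
      intro a
      have h7 := Real.add_one_le_exp (-a)
      have h8 : Real.exp a * Real.exp (-a) = 1 := by
        rw [← Real.exp_add, add_neg_cancel, Real.exp_zero]
      nlinarith [Real.exp_pos a]
    have h7 := h6 (κ * ‖y - p‖)
    linarith
  rw [h2, norm_mul, mul_assoc]
  gcongr

/-- The orbits of the points of a small disc around the critical value follow the critical orbit. -/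
lemma trap_close {n : ℕ} (hn : 1 ≤ n) {ζ : ℂ} {k : ℕ} {Y η σ : ℝ} (hY0 : 0 ≤ Y)
    (hpos : ∀ j ≤ k, 7 ≤ (orb ζ j).re) (hY : ∀ j < k, Real.exp (orb ζ j).re ≤ Y)
    (hnY : 4 * (Y + 1) ≤ n) (hη : (Y + 1) ^ 2 / n ≤ η)
    (hη2 : η * Real.exp (rsum ζ k) ≤ 1 / 4)
    (hσ : 2 * (η * Real.exp (rsum ζ k)) + 4 * (Y + 1) / n ≤ σ) (hσk : (k + 1) * σ ≤ 1 / 10)
    {y : ℂ} (hy : ‖y - ζ‖ ≤ Real.exp (-rsum ζ (k + 1)) / 4) :
    ∀ j ≤ k + 1, ‖(pmap n ζ)^[j] y - porb n ζ j‖ ≤ 3 / 5 := by
  have hnR : (0 : ℝ) < n := by exact_mod_cast hn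
  have hη0 : 0 < η := lt_of_lt_of_le (by positivity) hη
  have hσ0 : 0 ≤ σ := by
    refine le_trans ?_ hσ
    positivity
  have hB := exp_seven
  have hcl := porb_close (m := k) hn hY0 (fun j hj => hpos j hj.le) hY (by linarith) hη hη2
  have hmono := rsum_mono_of_pos (m := k + 1) (ζ := ζ) (fun j hj => hpos j (by omega))
  have hmonok := rsum_mono_of_pos (m := k) (ζ := ζ) (fun j hj => hpos j hj.le)
  have hexp01 : Real.exp (1 / 10) ≤ 1.12 := by
    have h1 := Real.abs_exp_sub_one_sub_id_le (x := 1 / 10) (by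
      rw [abs_of_pos (by norm_num)]; norm_num)
    have h2 := (abs_le.1 h1).2
    norm_num at h2 ⊢
    linarith
  set E : ℕ → ℝ := fun i => Real.exp (orb ζ i).re * Real.exp σ with hE
  have hprod : ∀ j ≤ k + 1, Real.exp (-rsum ζ (k + 1)) / 4 * ∏ i ∈ Finset.range j, E i ≤
      28 / 100 := by
    intro j hj
    have h1 : ∏ i ∈ Finset.range j, E i = Real.exp (rsum ζ j) * Real.exp (j * σ) := by
      simp only [hE]
      rw [Finset.prod_mul_distrib, prod_exp_eq, Finset.prod_const, Finset.card_range,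
        ← Real.exp_nat_mul]
    rw [h1]
    have h2 : Real.exp (rsum ζ j) ≤ Real.exp (rsum ζ (k + 1)) := Real.exp_le_exp.2 (hmono j hj)
    have h3 : Real.exp (j * σ) ≤ 1.12 := by
      refine le_trans (Real.exp_le_exp.2 ?_) hexp01
      have h4 : (j : ℝ) ≤ k + 1 := by exact_mod_cast hj
      nlinarith
    calc Real.exp (-rsum ζ (k + 1)) / 4 * (Real.exp (rsum ζ j) * Real.exp (j * σ)) ≤
        Real.exp (-rsum ζ (k + 1)) / 4 * (Real.exp (rsum ζ (k + 1)) * 1.12) := by gcongr
      _ = (Real.exp (-rsum ζ (k + 1)) * Real.exp (rsum ζ (k + 1))) * 0.28 := by ring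
      _ = 28 / 100 := by rw [← Real.exp_add, neg_add_cancel, Real.exp_zero]; norm_num
  intro j
  induction j using Nat.strong_induction_on with
  | _ j ih =>
    intro hj
    have hb := growth_bound (E := E)
      (e := fun i => ‖(pmap n ζ)^[i] y - porb n ζ i‖) (B := Real.exp 7) (D := 28 / 100)
      (t := Real.exp (-rsum ζ (k + 1)) / 4) (k := j)
      (by linarith) (by norm_num) (by linarith)
      (fun i hi => by
        simp only [hE]
        have h1 := Real.exp_le_exp.2 (hpos i (by omega))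
        have h2 := Real.one_le_exp hσ0
        have h3 := Real.exp_pos (7 : ℝ)
        nlinarith) (by positivity)
      (by simpa [porb] using hy) (by
        intro i hi
        have hi1 := ih i hi (by omega)
        have hik : i ≤ k := by omega
        have hi2 := hcl i hik
        have hi3 : Real.exp (rsum ζ i) * η ≤ η * Real.exp (rsum ζ k) := by
          have h2 := Real.exp_le_exp.2 (hmonok i hik)
          rw [mul_comm]; gcongr
        have hi4 : ‖orb ζ i - ζ‖ ≤ Y := norm_orb_sub_le' hY0 hY i hik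
        have hi5 : ‖porb n ζ i - ζ‖ ≤ Y + 1 := by
          have h1 : porb n ζ i - ζ = (porb n ζ i - orb ζ i) + (orb ζ i - ζ) := by ring
          rw [h1]
          have := norm_add_le (porb n ζ i - orb ζ i) (orb ζ i - ζ)
          linarith
        set κ : ℝ := 1 + 2 * (Y + 1) / n with hκ
        have hYn : (Y + 1) / n ≤ 1 / 4 := by
          rw [div_le_iff₀ hnR]; linarith
        have hYn0 : 0 ≤ (Y + 1) / n := by positivity
        have hκe : κ = 1 + 2 * ((Y + 1) / n) := by rw [hκ]; ring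
        have hκ1 : 1 ≤ κ * (1 - ‖porb n ζ i - ζ‖ / n) := by
          have h1 : ‖porb n ζ i - ζ‖ / n ≤ (Y + 1) / n := by gcongr
          have h2 : κ * (1 - (Y + 1) / n) ≤ κ * (1 - ‖porb n ζ i - ζ‖ / n) := by
            have : 0 ≤ κ := by rw [hκe]; linarith
            gcongr
          refine le_trans ?_ h2
          rw [hκe]
          nlinarith
        have h6 := pmap_sub_pmap_le hn (ζ := ζ) (p := porb n ζ i) (y := (pmap n ζ)^[i] y)
          (κ := κ) hκ1 (by linarith)
        obtain ⟨η', hη', he⟩ := pmap_eq_exp hn (ζ := ζ) (w := porb n ζ i) (by linarith)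
        have hη'' : ‖η'‖ ≤ η := by
          refine hη'.trans (le_trans ?_ hη)
          gcongr
        have h7 : ‖pmap n ζ (porb n ζ i) - ζ‖ ≤
            Real.exp (orb ζ i).re * Real.exp (2 * (η * Real.exp (rsum ζ k))) := by
          rw [he, add_sub_cancel_left, Complex.norm_exp, ← Real.exp_add]
          apply Real.exp_le_exp.2
          have h8 := Complex.abs_re_le_norm (porb n ζ i + η' - orb ζ i)
          rw [Complex.sub_re] at h8
          have h9 := le_abs_self ((porb n ζ i + η').re - (orb ζ i).re)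
          have h10 : ‖porb n ζ i + η' - orb ζ i‖ ≤ ‖porb n ζ i - orb ζ i‖ + η := by
            have h4 : porb n ζ i + η' - orb ζ i = (porb n ζ i - orb ζ i) + η' := by ring
            rw [h4]
            have := norm_add_le (porb n ζ i - orb ζ i) η'
            linarith
          linarith
        set d := ‖(pmap n ζ)^[i] y - porb n ζ i‖ with hd
        have hd0 : 0 ≤ d := norm_nonneg _
        have hκ0 : 1 ≤ κ := by rw [hκe]; linarith
        have h8 : Real.exp (κ * d) ≤ Real.exp d * Real.exp (κ - 1) := by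
          rw [← Real.exp_add]
          apply Real.exp_le_exp.2
          nlinarith
        have h9 : κ ≤ Real.exp (κ - 1) := by
          have := Real.add_one_le_exp (κ - 1); linarith
        have h10 : Real.exp (2 * (η * Real.exp (rsum ζ k))) * (Real.exp (κ - 1) *
            Real.exp (κ - 1)) ≤ Real.exp σ := by
          rw [← Real.exp_add, ← Real.exp_add]
          apply Real.exp_le_exp.2
          refine le_trans (le_of_eq ?_) hσ
          rw [hκ]; ring
        have h11 : ‖(pmap n ζ)^[i + 1] y - porb n ζ (i + 1)‖ ≤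
            ‖pmap n ζ (porb n ζ i) - ζ‖ * (κ * d) * Real.exp (κ * d) := by
          rw [Function.iterate_succ_apply']
          exact h6
        have h12 : ‖pmap n ζ (porb n ζ i) - ζ‖ * (κ * d) * Real.exp (κ * d) ≤
            E i * d * Real.exp d := by
          calc ‖pmap n ζ (porb n ζ i) - ζ‖ * (κ * d) * Real.exp (κ * d) ≤
              (Real.exp (orb ζ i).re * Real.exp (2 * (η * Real.exp (rsum ζ k)))) *
                (Real.exp (κ - 1) * d) * (Real.exp d * Real.exp (κ - 1)) := by gcongr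
            _ = Real.exp (orb ζ i).re * (Real.exp (2 * (η * Real.exp (rsum ζ k))) *
                (Real.exp (κ - 1) * Real.exp (κ - 1))) * d * Real.exp d := by ring
            _ ≤ Real.exp (orb ζ i).re * Real.exp σ * d * Real.exp d := by gcongr
            _ = _ := rfl
        have h13 : 0 ≤ Real.exp (-rsum ζ (k + 1)) / 4 := by positivity
        linarith) (fun i => norm_nonneg _) (hprod j hj)
    have h1 := (hb j le_rfl).1
    have h2 := hprod j hj
    linarith

/-- A strongly contracting disc contains an attracting fixed point. -/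
lemma attracting_of_trap_four {g : ℂ → ℂ} (hg : Differentiable ℂ g) {c : ℂ} {ρ : ℝ} (hρ : 0 < ρ)
    (h : ∀ y ∈ closedBall c ρ, ‖g y - c‖ ≤ ρ / 4) : ∃ z, g z = z ∧ ‖deriv g z‖ < 1 := by
  refine attracting_of_contraction hg (c := c) (ρ := ρ / 4) (q := 2 / 3) (by positivity)
    (by norm_num) ?_ ?_
  · intro y hy
    have hy' : y ∈ closedBall c ρ := by
      rw [mem_closedBall] at hy
      rw [mem_closedBall]; linarith
    rw [mem_closedBall, dist_eq_norm]
    exact h y hy'
  · intro y hy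
    have hyb : ball y (3 * ρ / 4) ⊆ closedBall c ρ := by
      intro u hu
      rw [mem_closedBall] at hy
      rw [mem_ball] at hu
      rw [mem_closedBall]
      have := dist_triangle u y c
      linarith
    have hmaps : MapsTo g (ball y (3 * ρ / 4)) (closedBall (g y) (ρ / 2)) := by
      intro u hu
      have h1 := h u (hyb hu)
      have h2 := h y (hyb (mem_ball_self (by positivity)))
      rw [mem_closedBall, dist_eq_norm]
      have h3 : g u - g y = (g u - c) - (g y - c) := by ring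
      rw [h3]
      have := norm_sub_le (g u - c) (g y - c)
      linarith
    have h1 := Complex.norm_deriv_le_div_of_mapsTo_ball hg.differentiableOn hmaps (by positivity)
    calc ‖deriv g y‖ ≤ ρ / 2 / (3 * ρ / 4) := h1
      _ = 2 / 3 := by field_simp; norm_num

/-- The criterion for the existence of an attracting cycle. -/
lemma hyp_of_small {n : ℕ} (hn : 2 ≤ n) {ζ : ℂ} {k : ℕ} {Y η σ : ℝ} (hY0 : 0 ≤ Y)
    (hpos : ∀ j ≤ k, 7 ≤ (orb ζ j).re) (hY : ∀ j < k, Real.exp (orb ζ j).re ≤ Y)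
    (hnY : 4 * (Y + 1) ≤ n) (hη : (Y + 1) ^ 2 / n ≤ η)
    (hη2 : η * Real.exp (rsum ζ k) ≤ 1 / 4)
    (hσ : 2 * (η * Real.exp (rsum ζ k)) + 4 * (Y + 1) / n ≤ σ) (hσk : (k + 1) * σ ≤ 1 / 10)
    (hsmall : Real.exp ζ.re * (‖1 + (porb n ζ (k + 1) - ζ) / n‖ + 3 / 5 / n) ^ n ≤
      Real.exp (-rsum ζ (k + 1)) / 16) {c : ℂ}
    (hc : (n : ℂ) * c ^ (n - 1) = Complex.exp ζ) : c ∈ hyperbolic n := by
  have hnR : (0 : ℝ) < n := by exact_mod_cast (by omega : 0 < n)
  set ρ := Real.exp (-rsum ζ (k + 1)) / 4 with hρ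
  have hρ0 : 0 < ρ := by positivity
  have htrap : ∀ y ∈ closedBall ζ ρ, ‖(pmap n ζ)^[k + 2] y - ζ‖ ≤ ρ / 4 := by
    intro y hy
    rw [mem_closedBall, dist_eq_norm] at hy
    have h1 := trap_close (by omega) hY0 hpos hY hnY hη hη2 hσ hσk hy (k + 1) le_rfl
    rw [Function.iterate_succ_apply']
    have h2 : pmap n ζ ((pmap n ζ)^[k + 1] y) - ζ =
        Complex.exp ζ * (1 + ((pmap n ζ)^[k + 1] y - ζ) / n) ^ n := by
      simp only [pmap, add_sub_cancel_left]
    rw [h2, norm_mul, norm_pow, Complex.norm_exp]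
    have h3 : ‖1 + ((pmap n ζ)^[k + 1] y - ζ) / n‖ ≤
        ‖1 + (porb n ζ (k + 1) - ζ) / n‖ + 3 / 5 / n := by
      have h4 : 1 + ((pmap n ζ)^[k + 1] y - ζ) / n = (1 + (porb n ζ (k + 1) - ζ) / n) +
          ((pmap n ζ)^[k + 1] y - porb n ζ (k + 1)) / n := by ring
      rw [h4]
      refine (norm_add_le _ _).trans ?_
      rw [norm_div, Complex.norm_natCast]
      gcongr
    calc Real.exp ζ.re * ‖1 + ((pmap n ζ)^[k + 1] y - ζ) / n‖ ^ n ≤
        Real.exp ζ.re * (‖1 + (porb n ζ (k + 1) - ζ) / n‖ + 3 / 5 / n) ^ n := by gcongr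
      _ ≤ Real.exp (-rsum ζ (k + 1)) / 16 := hsmall
      _ = ρ / 4 := by rw [hρ]; ring
  obtain ⟨z, hz1, hz2⟩ := attracting_of_trap_four ((pmap_differentiable n ζ).iterate (k + 2)) hρ0 htrap
  exact hyperbolic_of_pmap hn hc (by omega) hz1 hz2

end Pool.Agent.helper48.EL
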