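import Pool.Agent.helper48.EL.Orbit

/-!
# Where the non-hyperbolic parameters of `M_n` can be
-/

set_option autoImplicit false

open Metric Set Filter Complex MeasureTheory Topology

namespace Pool.Agent.helper48.EL

open Pool.Agent.helper98.ILF Pool.Agent.helper16.Multibrot

/-- `n` is large compared with `Y`. -/
structure Lrg (n : ℕ) (Y τ : ℝ) : Prop where
  hn : 100 ≤ n
  hY1 : 1 ≤ Y
  hYn : 100 * (Y + 1) ≤ n
  hτ : 2 * ((Y + 1) ^ 2 / n * Y ^ 2) ≤ τ
  hτ2 : τ ≤ 1 / 200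
  hσ : (Real.log Y + 2) * (τ + 4 * (Y + 1) / n) ≤ 1 / 10
  hY3 : 192 * Y ^ 3 ≤ (n : ℝ) ^ 2
  hlog : Real.log n / n ≤ 1 / 40

lemma Lrg.npos {n : ℕ} {Y τ : ℝ} (h : Lrg n Y τ) : (0 : ℝ) < n := by
  have := h.hn
  exact_mod_cast (by omega : 0 < n)

lemma Lrg.τpos {n : ℕ} {Y τ : ℝ} (h : Lrg n Y τ) : 0 < τ := by
  have h1 := h.npos
  have h2 := h.hY1
  exact lt_of_lt_of_le (by positivity) h.hτ

lemma exp_rsum_le {x y : ℝ} {Y : ℝ} (hY1 : 1 ≤ Y) {ζ : ℂ} {k : ℕ} (hk : ζ ∈ contSet x y k)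
    (hY : ∀ j < k, Real.exp (orb ζ j).re ≤ Y) : Real.exp (rsum ζ k) ≤ Y ^ 2 := by
  have hYY : Y ≤ Y ^ 2 := by nlinarith
  rcases Nat.eq_zero_or_pos k with rfl | hk0
  · simp only [rsum, Finset.range_zero, Finset.sum_empty, Real.exp_zero]
    linarith
  · obtain ⟨i, rfl⟩ : ∃ i, k = i + 1 := ⟨k - 1, by omega⟩
    have h1 := hY i (by omega)
    rw [rsum_succ, Real.exp_add]
    rcases Nat.eq_zero_or_pos i with rfl | hi0
    · simp only [rsum, Finset.range_zero, Finset.sum_empty, Real.exp_zero, one_mul]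
      linarith
    · have h2 := hk.2 i hi0 (by omega)
      have h3 : Real.exp (rsum ζ i) ≤ Real.exp (orb ζ i).re := Real.exp_le_exp.2 (by linarith)
      have h4 := Real.exp_pos (orb ζ i).re
      have h5 := Real.exp_pos (rsum ζ i)
      calc Real.exp (rsum ζ i) * Real.exp (orb ζ i).re ≤ Y * Y :=
            mul_le_mul (h3.trans h1) h1 h4.le (by linarith)
        _ = Y ^ 2 := by ring

/-- The number of stages is bounded. -/
lemma stage_le {x y : ℝ} (hx : 7 ≤ x) {Y : ℝ} (hY1 : 1 ≤ Y) {ζ : ℂ} {k : ℕ}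
    (hk : ζ ∈ contSet x y k) (hY : ∀ j < k, Real.exp (orb ζ j).re ≤ Y) :
    (k : ℝ) ≤ Real.log Y := by
  rcases Nat.eq_zero_or_pos k with rfl | hk0
  · simpa using Real.log_nonneg hY1
  · obtain ⟨i, rfl⟩ : ∃ i, k = i + 1 := ⟨k - 1, by omega⟩
    have h1 := hY i (by omega)
    rw [← Real.le_log_iff_exp_le (by linarith)] at h1
    have h2 := re_orb_ge hx hk i (by omega)
    have h3 : 7 ≤ ζ.re := hx.trans hk.1.1.1
    push_cast
    have : (0 : ℝ) ≤ i := by positivity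
    linarith

section

variable {n : ℕ} {Y τ : ℝ}

/-- The common hypotheses of the two cases. -/
lemma basic (hL : Lrg n Y τ) {x y : ℝ} (hx : 7 ≤ x) {ζ : ℂ} {k : ℕ} (hk : ζ ∈ contSet x y k)
    (hY : ∀ j < k, Real.exp (orb ζ j).re ≤ Y) :
    (Y + 1) ^ 2 / n * Real.exp (rsum ζ k) ≤ 1 / 4 ∧
    2 * ((Y + 1) ^ 2 / n * Real.exp (rsum ζ k)) ≤ τ ∧
    2 * ((Y + 1) ^ 2 / n * Real.exp (rsum ζ k)) + 4 * (Y + 1) / n ≤ τ + 4 * (Y + 1) / n ∧
    ((k : ℝ) + 1) * (τ + 4 * (Y + 1) / n) ≤ 1 / 10 := by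
  have hn := hL.npos
  have hY1 := hL.hY1
  have hτ := hL.hτ
  have hτ2 := hL.hτ2
  have h1 := exp_rsum_le hY1 hk hY
  have h2 : (Y + 1) ^ 2 / n * Real.exp (rsum ζ k) ≤ (Y + 1) ^ 2 / n * Y ^ 2 := by gcongr
  have h3 := stage_le hx hY1 hk hY
  have h4 := hL.hσ
  have hτ0 := hL.τpos
  refine ⟨by linarith, by linarith, by linarith, le_trans ?_ h4⟩
  have h5 : 0 ≤ τ + 4 * (Y + 1) / n := by positivity
  gcongr
  linarith

lemma hyp_of_small' (hL : Lrg n Y τ) {x y : ℝ} (hx : 7 ≤ x) {ζ : ℂ} {k : ℕ}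
    (hk : ζ ∈ contSet x y k) (hY : ∀ j < k, Real.exp (orb ζ j).re ≤ Y)
    (hsmall : Real.exp ζ.re * (‖1 + (porb n ζ (k + 1) - ζ) / n‖ + 3 / 5 / n) ^ n ≤
      Real.exp (-rsum ζ (k + 1)) / 16) {c : ℂ}
    (hc : (n : ℂ) * c ^ (n - 1) = Complex.exp ζ) : c ∈ hyperbolic n := by
  obtain ⟨h1, h2, h3, h4⟩ := basic hL hx hk hY
  have hn := hL.hn
  have hY1 := hL.hY1
  have hYn := hL.hYn
  exact hyp_of_small (by omega) (by linarith) (fun j hj => seven_le_orb hx hk j hj) hY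
    (by linarith) le_rfl h1 h3 h4 hsmall hc

/-- Case B: the orbit goes far to the left. -/
lemma caseB (hL : Lrg n Y τ) {x y : ℝ} (hx : 7 ≤ x) {ζ : ℂ} {k : ℕ}
    (hk : ζ ∈ contSet x y k) (hY : ∀ j < k + 1, Real.exp (orb ζ j).re ≤ Y)
    (hleft : (orb ζ (k + 1)).re ≤ -(4 + rsum ζ (k + 1))) {c : ℂ}
    (hc : (n : ℂ) * c ^ (n - 1) = Complex.exp ζ) : c ∈ hyperbolic n := by
  have hn100 := hL.hn
  have hn := hL.npos
  have hY1 := hL.hY1
  have hYn := hL.hYn
  have hτ := hL.hτ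
  have hτ2 := hL.hτ2
  have hn0 : (n : ℂ) ≠ 0 := by exact_mod_cast (by omega : n ≠ 0)
  apply hyp_of_small' hL hx hk (fun j hj => hY j (by omega)) _ hc
  -- the sum
  have hrs : Real.exp (rsum ζ (k + 1)) ≤ Y ^ 2 := by
    have h1 := hY k (by omega)
    rw [rsum_succ, Real.exp_add]
    rcases Nat.eq_zero_or_pos k with rfl | hk0
    · simp only [rsum, Finset.range_zero, Finset.sum_empty, Real.exp_zero, one_mul]
      nlinarith
    · have h2 := hk.2 k hk0 le_rfl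
      have h3 : Real.exp (rsum ζ k) ≤ Real.exp (orb ζ k).re := Real.exp_le_exp.2 (by linarith)
      have h4 := Real.exp_pos (orb ζ k).re
      calc Real.exp (rsum ζ k) * Real.exp (orb ζ k).re ≤ Y * Y :=
            mul_le_mul (h3.trans h1) h1 h4.le (by linarith)
        _ = Y ^ 2 := by ring
  set η : ℝ := (Y + 1) ^ 2 / n with hη
  have hη0 : 0 < η := by positivity
  have hηY : 2 * (η * Real.exp (rsum ζ (k + 1))) ≤ 1 / 200 := by
    have h2 : η * Real.exp (rsum ζ (k + 1)) ≤ η * Y ^ 2 := by gcongr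
    linarith
  have hcl := porb_close (m := k + 1) (by omega : 1 ≤ n) (ζ := ζ) (Y := Y) (η := η) (by linarith)
    (fun j hj => seven_le_orb hx hk j (by omega)) hY (by linarith) le_rfl (by linarith)
    (k + 1) le_rfl
  have hcl' : ‖porb n ζ (k + 1) - orb ζ (k + 1)‖ + η ≤ 1 / 200 := by
    refine hcl.trans (le_trans (le_of_eq ?_) hηY)
    ring
  set p := porb n ζ (k + 1) with hp
  have hpζ : ‖p - ζ‖ ≤ Y + 1 := by
    have h1 : p - ζ = (p - orb ζ (k + 1)) + (orb ζ (k + 1) - ζ) := by ring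
    rw [h1]
    have h2 := norm_add_le (p - orb ζ (k + 1)) (orb ζ (k + 1) - ζ)
    have h3 : ‖orb ζ (k + 1) - ζ‖ ≤ Y := by
      rw [norm_orb_succ_sub]; exact hY k (by omega)
    linarith
  obtain ⟨η', hη', he⟩ := pmap_eq_exp (by omega : 1 ≤ n) (ζ := ζ) (w := p) (by linarith)
  have hη'' : ‖η'‖ ≤ η := by
    refine hη'.trans ?_
    rw [hη]
    gcongr
  -- the size of the next point
  have h1 : Real.exp ζ.re * ‖1 + (p - ζ) / n‖ ^ n ≤
      Real.exp (-(4 + rsum ζ (k + 1)) + 1 / 200) := by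
    have h2 : Real.exp ζ.re * ‖1 + (p - ζ) / n‖ ^ n = ‖pmap n ζ p - ζ‖ := by
      simp only [pmap, add_sub_cancel_left, norm_mul, norm_pow, Complex.norm_exp]
    rw [h2, he, add_sub_cancel_left, Complex.norm_exp]
    apply Real.exp_le_exp.2
    have h8 := Complex.abs_re_le_norm (p + η' - orb ζ (k + 1))
    rw [Complex.sub_re] at h8
    have h9 := le_abs_self ((p + η').re - (orb ζ (k + 1)).re)
    have h10 : ‖p + η' - orb ζ (k + 1)‖ ≤ ‖p - orb ζ (k + 1)‖ + η := by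
      have h4 : p + η' - orb ζ (k + 1) = (p - orb ζ (k + 1)) + η' := by ring
      rw [h4]
      have := norm_add_le (p - orb ζ (k + 1)) η'
      linarith
    linarith
  set M := ‖1 + (p - ζ) / n‖ with hM
  have hM1 : 99 / 100 ≤ M := by
    have h2 := norm_sub_norm_le (1 : ℂ) (-((p - ζ) / n))
    rw [norm_neg, norm_one, norm_div, Complex.norm_natCast, sub_neg_eq_add] at h2
    have h3 : ‖p - ζ‖ / n ≤ 1 / 100 := by
      rw [div_le_iff₀ hn]; linarith
    linarith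
  have h2 : (M + 3 / 5 / n) ^ n ≤ M ^ n * Real.exp (61 / 100) := by
    have h3 : M + 3 / 5 / n ≤ M * (1 + 61 / 100 / n) := by
      have h4 : M * (61 / 100 / n) ≥ 99 / 100 * (61 / 100 / n) := by gcongr
      have h5 : 99 / 100 * (61 / 100 / (n : ℝ)) ≥ 3 / 5 / n := by
        have h6 : (0 : ℝ) < 1 / n := by positivity
        have h7 : 99 / 100 * (61 / 100 / (n : ℝ)) = (99 * 61 / 10000) * (1 / n) := by ring
        have h8 : 3 / 5 / (n : ℝ) = (3 / 5) * (1 / n) := by ring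
        rw [h7, h8]
        nlinarith
      rw [mul_add, mul_one]
      linarith
    calc (M + 3 / 5 / n) ^ n ≤ (M * (1 + 61 / 100 / n)) ^ n := by gcongr
      _ = M ^ n * (1 + 61 / 100 / n) ^ n := by rw [mul_pow]
      _ ≤ M ^ n * Real.exp (61 / 100 / n) ^ n := by
          gcongr
          have := Real.add_one_le_exp (61 / 100 / (n : ℝ))
          linarith
      _ = M ^ n * Real.exp (61 / 100) := by
          rw [← Real.exp_nat_mul]
          congr 2
          field_simp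
  calc Real.exp ζ.re * (M + 3 / 5 / n) ^ n ≤ Real.exp ζ.re * (M ^ n * Real.exp (61 / 100)) := by
        gcongr
    _ = (Real.exp ζ.re * M ^ n) * Real.exp (61 / 100) := by ring
    _ ≤ Real.exp (-(4 + rsum ζ (k + 1)) + 1 / 200) * Real.exp (61 / 100) := by gcongr
    _ = Real.exp (-rsum ζ (k + 1)) * Real.exp (-(4 - 1 / 200 - 61 / 100)) := by
        rw [← Real.exp_add, ← Real.exp_add]
        congr 1
        ring
    _ ≤ Real.exp (-rsum ζ (k + 1)) * (1 / 16) := by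
        have h3 : Real.exp (-(4 - 1 / 200 - 61 / 100)) ≤ Real.exp (-3) :=
          Real.exp_le_exp.2 (by norm_num)
        have h4 : Real.exp (-3) ≤ 1 / 16 := by
          rw [Real.exp_neg, ← one_div]
          apply one_div_le_one_div_of_le (by norm_num)
          have h1 : Real.exp 3 = Real.exp 1 ^ 3 := by rw [← Real.exp_nat_mul]; norm_num
          have h2 := Real.exp_one_gt_d9
          rw [h1]
          calc (16 : ℝ) ≤ 2.7 ^ 3 := by norm_num
            _ ≤ Real.exp 1 ^ 3 := by gcongr; linarith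
        gcongr
        linarith
    _ = Real.exp (-rsum ζ (k + 1)) / 16 := by ring

end

end Pool.Agent.helper48.EL
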