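import Pool.Agent.helper48.EL.Stage

/-!
# The last stage: the point is not small compared with `n`
-/

set_option autoImplicit false

open Metric Set Filter Complex MeasureTheory Topology

namespace Pool.Agent.helper48.EL

open Pool.Agent.helper98.ILF Pool.Agent.helper16.Multibrot

lemma norm_param_pow {n : ℕ} (hn : 1 ≤ n) {ζ c : ℂ} (hc : (n : ℂ) * c ^ (n - 1) = Complex.exp ζ) :
    (n : ℝ) * ‖c‖ ^ (n - 1) = Real.exp ζ.re := by
  have h := congrArg (fun z : ℂ => ‖z‖) hc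
  simpa [norm_mul, norm_pow, Complex.norm_natCast, Complex.norm_exp] using h

lemma norm_crit_le {n : ℕ} (hn : 100 ≤ n) {ζ c : ℂ} (hζ : 0 ≤ ζ.re)
    (hc : (n : ℂ) * c ^ (n - 1) = Complex.exp ζ) (hM : c ∈ multibrot n) (k : ℕ) :
    ‖1 + (porb n ζ k - ζ) / n‖ ≤ 4 := by
  by_contra hcon
  rw [not_le] at hcon
  have hnR : (0 : ℝ) < n := by exact_mod_cast (by omega : 0 < n)
  set M := ‖1 + (porb n ζ k - ζ) / n‖ with hMdef
  have hcp := norm_param_pow (by omega : 1 ≤ n) hc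
  have h1 : (1 : ℝ) ≤ n * ‖c‖ ^ (n - 1) := by
    rw [hcp]; exact Real.one_le_exp hζ
  have hit : ‖(fun w : ℂ => w ^ n + c)^[k + 1] 0‖ = ‖c‖ * M := by
    rw [crit_iterate (by omega) hc, norm_mul]
  apply hM
  apply Pool.Agent.LeadMultibrot.escape_zero (by omega) (k + 1)
  · rw [hit]
    exact le_mul_of_one_le_right (norm_nonneg _) (by linarith)
  · rw [hit, mul_pow]
    have h2 : (n : ℝ) ≤ 2 ^ (n - 1) := by
      have h3 : n - 1 < 2 ^ (n - 1) := Nat.lt_two_pow_self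
      have h4 : n ≤ 2 ^ (n - 1) := by omega
      exact_mod_cast h4
    have h3 : (4 : ℝ) ^ (n - 1) = 2 ^ (n - 1) * 2 ^ (n - 1) := by
      rw [← mul_pow]; norm_num
    have h4 : (4 : ℝ) ^ (n - 1) ≤ M ^ (n - 1) := pow_le_pow_left₀ (by norm_num) hcon.le _
    have h5 : (n : ℝ) * n ≤ M ^ (n - 1) := by
      refine le_trans ?_ h4
      rw [h3]
      exact mul_le_mul h2 h2 hnR.le (by positivity)
    have hn100 : (100 : ℝ) ≤ n := by exact_mod_cast hn
    have hcn : 0 ≤ ‖c‖ ^ (n - 1) := by positivity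
    calc (2 : ℝ) < n := by linarith
      _ ≤ (n * ‖c‖ ^ (n - 1)) * n := le_mul_of_one_le_left hnR.le h1
      _ = ‖c‖ ^ (n - 1) * (n * n) := by ring
      _ ≤ ‖c‖ ^ (n - 1) * M ^ (n - 1) := by gcongr

lemma norm_x_le {n : ℕ} (hn : 0 < n) {x : ℂ} (h : ‖1 + x / n‖ ≤ 4) : ‖x‖ ≤ 5 * n := by
  have hnR : (0 : ℝ) < n := by exact_mod_cast hn
  have h1 := norm_sub_norm_le (x / (n : ℂ)) (-1)
  rw [norm_neg, norm_one, sub_neg_eq_add, add_comm (x / (n : ℂ)) 1, norm_div,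
    Complex.norm_natCast] at h1
  have h2 : ‖x‖ / n ≤ 5 := by linarith
  rwa [div_le_iff₀ hnR] at h2

/-- Case A. -/
lemma caseA {n : ℕ} {Y τ : ℝ} (hL : Lrg n Y τ) {x y : ℝ} (hx : 7 ≤ x) {ζ : ℂ} {k : ℕ}
    (hk : ζ ∈ contSet x y k) (hY : ∀ j < k, Real.exp (orb ζ j).re ≤ Y)
    (hζ : Real.exp ζ.re ≤ Y) (hkY : Y ≤ Real.exp (orb ζ k).re) {c : ℂ}
    (hc : (n : ℂ) * c ^ (n - 1) = Complex.exp ζ) (hM : c ∈ multibrot n)
    (hH : c ∉ hyperbolic n) :
    Real.exp (orb ζ k).re ≤ 6 * n ∧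
      |2 * Real.cos (orb ζ k).im + Real.exp (orb ζ k).re / n| ≤ 9 * Real.log n / Y + 30 * τ := by
  have hn100 := hL.hn
  have hn := hL.npos
  have hnR : (100 : ℝ) ≤ n := by exact_mod_cast hn100
  have hY1 := hL.hY1
  have hYn := hL.hYn
  have hτ := hL.hτ
  have hτ2 := hL.hτ2
  have hτ0 := hL.τpos
  have hY3 := hL.hY3
  have hlog := hL.hlog
  set ℓ := Real.log n with hℓ
  have hℓ0 : 0 < ℓ := Real.log_pos (by linarith)
  have hexpℓ : Real.exp ℓ = n := Real.exp_log hn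
  have hn0 : (n : ℂ) ≠ 0 := by exact_mod_cast (by omega : n ≠ 0)
  obtain ⟨hb1, hb2, hb3, hb4⟩ := basic hL hx hk hY
  have hζ0 : 0 ≤ ζ.re := by
    have := hk.1.1.1
    linarith
  have hrs := exp_rsum_le hY1 hk hY
  set η : ℝ := (Y + 1) ^ 2 / n with hη
  have hη0 : 0 < η := by positivity
  have hcl := porb_close (m := k) (by omega : 1 ≤ n) (ζ := ζ) (Y := Y) (η := η) (by linarith)
    (fun j hj => seven_le_orb hx hk j (by omega)) hY (by linarith) le_rfl hb1 k le_rfl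
  set p := porb n ζ k with hp
  have hcl' : ‖p - orb ζ k‖ + η ≤ τ := by
    refine hcl.trans (le_trans (le_of_eq ?_) hb2)
    ring
  have hpζ : ‖p - ζ‖ ≤ Y + 1 := by
    have h1 : p - ζ = (p - orb ζ k) + (orb ζ k - ζ) := by ring
    rw [h1]
    have h2 := norm_add_le (p - orb ζ k) (orb ζ k - ζ)
    have h3 : ‖orb ζ k - ζ‖ ≤ Y := norm_orb_sub_le' (by linarith) hY k le_rfl
    linarith
  obtain ⟨η', hη', he⟩ := pmap_eq_exp (by omega : 1 ≤ n) (ζ := ζ) (w := p) (by linarith)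
  have hη'' : ‖η'‖ ≤ η := by
    refine hη'.trans ?_
    rw [hη]
    gcongr
  set θ : ℂ := p + η' - orb ζ k with hθ
  have hθn : ‖θ‖ ≤ τ := by
    have h4 : θ = (p - orb ζ k) + η' := by rw [hθ]; ring
    rw [h4]
    have := norm_add_le (p - orb ζ k) η'
    linarith
  set X : ℂ := Complex.exp (orb ζ k) with hX
  set r : ℝ := Real.exp (orb ζ k).re with hr
  have hr0 : 0 < r := Real.exp_pos _
  have hXn : ‖X‖ = r := by rw [hX, Complex.norm_exp]
  set xx : ℂ := porb n ζ (k + 1) - ζ with hxx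
  have hxxe : xx = X * Complex.exp θ := by
    rw [hxx, hX, ← Complex.exp_add, hθ]
    have h1 : porb n ζ (k + 1) = pmap n ζ p := rfl
    rw [h1, he, add_sub_cancel_left]
    congr 1
    ring
  have hdiff : ‖xx - X‖ ≤ 2 * τ * r := by
    have h1 : xx - X = X * (Complex.exp θ - 1) := by rw [hxxe]; ring
    rw [h1, norm_mul, hXn]
    have h2 := Complex.norm_exp_sub_one_le (x := θ) (by linarith)
    calc r * ‖Complex.exp θ - 1‖ ≤ r * (2 * ‖θ‖) := by gcongr
      _ ≤ r * (2 * τ) := by gcongr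
      _ = 2 * τ * r := by ring
  set M : ℝ := ‖1 + xx / n‖ with hMdef
  have hM4 : M ≤ 4 := norm_crit_le hn100 hζ0 hc hM (k + 1)
  have hxx5 : ‖xx‖ ≤ 5 * n := norm_x_le (by omega) hM4
  have hrxx : |‖xx‖ - r| ≤ 2 * τ * r := by
    have := abs_norm_sub_norm_le xx X
    rw [hXn] at this
    linarith
  have hr6 : r ≤ 6 * n := by
    have h1 := (abs_le.1 hrxx).1
    nlinarith
  refine ⟨hr6, ?_⟩
  -- upper bound for `M`
  have hMn : M ^ n ≤ 5 * n := by
    have h1 := norm_x_le (by omega) (norm_crit_le hn100 hζ0 hc hM (k + 2))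
    have h2 : porb n ζ (k + 2) - ζ = Complex.exp ζ * (1 + xx / n) ^ n := by
      have h3 : porb n ζ (k + 2) = pmap n ζ (porb n ζ (k + 1)) := rfl
      rw [h3, pmap, hxx]
      ring
    rw [h2, norm_mul, norm_pow, Complex.norm_exp] at h1
    have h3 : 1 ≤ Real.exp ζ.re := Real.one_le_exp hζ0
    have h4 : 0 ≤ M ^ n := by positivity
    calc M ^ n ≤ Real.exp ζ.re * M ^ n := le_mul_of_one_le_left h4 h3
      _ ≤ 5 * n := h1
  have hMup : M ≤ 1 + 4 * (ℓ / n) := by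
    by_contra hcon
    rw [not_le] at hcon
    have h1 : Real.exp (2 * (ℓ / n)) ≤ 1 + 4 * (ℓ / n) := by
      have h0 : 0 < ℓ / n := by positivity
      have h6 := Real.abs_exp_sub_one_sub_id_le (x := 2 * (ℓ / n)) (by
        rw [abs_of_pos (by positivity)]; linarith)
      have := (abs_le.mp h6).2
      nlinarith
    have h2 : Real.exp (2 * (ℓ / n)) ^ n < M ^ n :=
      pow_lt_pow_left₀ (lt_of_le_of_lt h1 hcon) (Real.exp_pos _).le (by omega)
    rw [← Real.exp_nat_mul] at h2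
    have h3 : (n : ℝ) * (2 * (ℓ / n)) = ℓ + ℓ := by field_simp; ring
    rw [h3, Real.exp_add, hexpℓ] at h2
    nlinarith
  -- lower bound for `M`
  have hMlo : 1 - 3 * (ℓ / n) ≤ M := by
    by_contra hcon
    rw [not_le] at hcon
    apply hH
    apply hyp_of_small' hL hx hk hY _ hc
    have h1 : M + 3 / 5 / n ≤ Real.exp (-(3 * ℓ - 3 / 5) / n) := by
      have h2 := Real.add_one_le_exp (-(3 * ℓ - 3 / 5) / n)
      have h3 : -(3 * ℓ - 3 / 5) / n + 1 = 1 - 3 * (ℓ / n) + 3 / 5 / n := by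
        field_simp
        ring
      linarith
    have h2 : (M + 3 / 5 / n) ^ n ≤ Real.exp (3 / 5) / (n : ℝ) ^ 3 := by
      calc (M + 3 / 5 / n) ^ n ≤ Real.exp (-(3 * ℓ - 3 / 5) / n) ^ n := by
            apply pow_le_pow_left₀ _ h1
            positivity
        _ = Real.exp (3 / 5 - 3 * ℓ) := by
            rw [← Real.exp_nat_mul]
            congr 1
            field_simp
            ring
        _ = Real.exp (3 / 5) / (n : ℝ) ^ 3 := by
            rw [Real.exp_sub]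
            congr 1
            rw [show (3 : ℝ) * ℓ = ((3 : ℕ) : ℝ) * ℓ by norm_num, Real.exp_nat_mul, hexpℓ]
    have h3 : Real.exp (3 / 5) ≤ 2 := by
      rw [← Real.le_log_iff_exp_le (by norm_num)]
      have := Real.log_two_gt_d9
      linarith
    have h4 : Real.exp ζ.re * (M + 3 / 5 / n) ^ n ≤ Y * (2 / (n : ℝ) ^ 3) := by
      have h5 : (M + 3 / 5 / n) ^ n ≤ 2 / (n : ℝ) ^ 3 := by
        refine h2.trans ?_
        gcongr
      gcongr
    refine h4.trans ?_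
    have h5 : 1 / (Y ^ 2 * (6 * n)) ≤ Real.exp (-rsum ζ (k + 1)) := by
      rw [Real.exp_neg, ← one_div]
      apply one_div_le_one_div_of_le (Real.exp_pos _)
      rw [rsum_succ, Real.exp_add]
      gcongr
    refine le_trans ?_ (div_le_div_of_nonneg_right h5 (by norm_num))
    rw [mul_div_assoc', div_div, div_le_div_iff₀ (by positivity) (by positivity)]
    have h6 : Y * 2 * (Y ^ 2 * (6 * n) * 16) = (192 * Y ^ 3) * n := by ring
    rw [h6]
    calc (192 * Y ^ 3) * (n : ℝ) ≤ (n : ℝ) ^ 2 * n := by gcongr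
      _ = 1 * (n : ℝ) ^ 3 := by ring
  -- the square
  have hMsq : M ^ 2 = 1 + 2 * xx.re / n + ‖xx‖ ^ 2 / (n : ℝ) ^ 2 := by
    have h1 : 1 + xx / (n : ℂ) = ((n : ℂ) + xx) / n := by field_simp
    rw [hMdef, h1, norm_div, Complex.norm_natCast, div_pow, Complex.sq_norm, Complex.sq_norm,
      Complex.normSq_apply, Complex.normSq_apply]
    simp only [Complex.add_re, Complex.natCast_re, Complex.add_im, Complex.natCast_im, zero_add]
    field_simp
    ring
  have hM1 : |M ^ 2 - 1| ≤ 9 * (ℓ / n) := by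
    have h0 : 0 < ℓ / n := by positivity
    have h1 : M ^ 2 - 1 = (M - 1) * (M + 1) := by ring
    rw [h1, abs_mul]
    have h2 : |M - 1| ≤ 4 * (ℓ / n) := by
      rw [abs_le]; constructor <;> linarith
    have h3 : |M + 1| ≤ 2 + 4 * (ℓ / n) := by
      rw [abs_le]; constructor <;> linarith
    calc |M - 1| * |M + 1| ≤ (4 * (ℓ / n)) * (2 + 4 * (ℓ / n)) := by gcongr
      _ ≤ 9 * (ℓ / n) := by nlinarith
  have hmain : |2 * xx.re + ‖xx‖ ^ 2 / n| ≤ 9 * ℓ := by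
    have h1 : 2 * xx.re + ‖xx‖ ^ 2 / n = n * (M ^ 2 - 1) := by
      rw [hMsq]; field_simp; ring
    rw [h1, abs_mul, abs_of_pos hn]
    calc (n : ℝ) * |M ^ 2 - 1| ≤ n * (9 * (ℓ / n)) := by gcongr
      _ = 9 * ℓ := by field_simp
  have hre : |xx.re - X.re| ≤ 2 * τ * r := by
    have := Complex.abs_re_le_norm (xx - X)
    rw [Complex.sub_re] at this
    linarith
  have hsq : |‖xx‖ ^ 2 / n - r ^ 2 / n| ≤ 26 * τ * r := by
    have h1 : ‖xx‖ ^ 2 / n - r ^ 2 / n = (‖xx‖ - r) * ((‖xx‖ + r) / n) := by ring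
    rw [h1, abs_mul]
    have h2 : ‖xx‖ + r ≤ 13 * n := by
      have := (abs_le.1 hrxx).2
      nlinarith
    have h3 : |(‖xx‖ + r) / n| ≤ 13 := by
      rw [abs_of_nonneg (by positivity), div_le_iff₀ hn]
      exact h2
    calc |‖xx‖ - r| * |(‖xx‖ + r) / n| ≤ (2 * τ * r) * 13 := by gcongr
      _ = 26 * τ * r := by ring
  have hXre : X.re = r * Real.cos (orb ζ k).im := by
    rw [hX, Complex.exp_re]
  have hfin : |2 * X.re + r ^ 2 / n| ≤ 9 * ℓ + 30 * τ * r := by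
    have h1 : 2 * X.re + r ^ 2 / n = (2 * xx.re + ‖xx‖ ^ 2 / n) - 2 * (xx.re - X.re) -
        (‖xx‖ ^ 2 / n - r ^ 2 / n) := by ring
    rw [h1]
    have h2 := abs_sub ((2 * xx.re + ‖xx‖ ^ 2 / n) - 2 * (xx.re - X.re))
      (‖xx‖ ^ 2 / n - r ^ 2 / n)
    have h3 := abs_sub (2 * xx.re + ‖xx‖ ^ 2 / n) (2 * (xx.re - X.re))
    rw [abs_mul 2 (xx.re - X.re), abs_two] at h3
    linarith
  have h1 : 2 * Real.cos (orb ζ k).im + r / n = (2 * X.re + r ^ 2 / n) / r := by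
    rw [hXre]; field_simp
  rw [h1, abs_div, abs_of_pos hr0, div_le_iff₀ hr0]
  refine hfin.trans ?_
  have h2 : 9 * ℓ ≤ 9 * ℓ / Y * r := by
    rw [div_mul_eq_mul_div, le_div_iff₀ (by linarith)]
    gcongr
  linarith

end Pool.Agent.helper48.EL
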