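import Pool.Agent.helper48.EL.Fin

/-!
# The tail: parameters with large real part in logarithmic coordinate
-/

set_option autoImplicit false

open Metric Set Filter Complex MeasureTheory Topology

namespace Pool.Agent.helper48.EL

open Pool.Agent.helper98.ILF Pool.Agent.helper16.Multibrot

lemma tsum_volume_thinSet {x : ℝ} (hx : 7 ≤ x) (y : ℝ) :
    ∑' k, volume (thinSet x y k) ≤ ENNReal.ofReal (150000 * (x * Real.exp (-x))) := by
  have hterm : ∀ k : ℕ, volume (thinSet x y k) ≤
      ENNReal.ofReal (75000 * (x * Real.exp (-x))) * ENNReal.ofReal ((1 / 2) ^ k) := by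
    intro k
    refine (volume_thinSet hx y k).trans ?_
    rw [← ENNReal.ofReal_mul (by have : 0 ≤ x := by linarith
                                 positivity)]
    apply ENNReal.ofReal_le_ofReal
    have hk0 : (0 : ℝ) ≤ k := by positivity
    have h1 : x + 3 * k ≤ x * (1 + 3 * k) := by nlinarith
    have hE : Real.exp (-(x + 3 * k)) = Real.exp (-x) * Real.exp (-3) ^ k := by
      rw [← Real.exp_nat_mul, ← Real.exp_add]; congr 1; ring
    have h2 : Real.exp (-3) ≤ 1 / 8 := by
      rw [Real.exp_neg, ← one_div]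
      apply one_div_le_one_div_of_le (by norm_num)
      have h1 : Real.exp 3 = Real.exp 1 ^ 3 := by rw [← Real.exp_nat_mul]; norm_num
      have h2 := Real.exp_one_gt_d9
      rw [h1]
      calc (8 : ℝ) ≤ 2.7 ^ 3 := by norm_num
        _ ≤ Real.exp 1 ^ 3 := by gcongr; linarith
    have h3 : (1 + 3 * (k : ℝ)) * (1 / 8) ^ k ≤ (1 / 2) ^ k := by
      have h4 := one_add_mul_le_pow (a := (3 : ℝ)) (by norm_num) k
      have h5 : (1 + (3 : ℝ)) ^ k * (1 / 8) ^ k = (1 / 2) ^ k := by
        rw [← mul_pow]; norm_num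
      have h6 : (0 : ℝ) ≤ (1 / 8) ^ k := by positivity
      rw [← h5]
      gcongr
      linarith
    have h4 : Real.exp (-3) ^ k ≤ (1 / 8) ^ k := pow_le_pow_left₀ (Real.exp_pos _).le h2 k
    have hx0 : 0 ≤ x := by linarith
    calc 75000 * ((x + 3 * k) * Real.exp (-(x + 3 * k)))
        ≤ 75000 * ((x * (1 + 3 * k)) * (Real.exp (-x) * (1 / 8) ^ k)) := by
          rw [hE]
          gcongr
      _ = 75000 * (x * Real.exp (-x)) * ((1 + 3 * k) * (1 / 8) ^ k) := by ring
      _ ≤ 75000 * (x * Real.exp (-x)) * (1 / 2) ^ k := by gcongr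
  calc ∑' k, volume (thinSet x y k) ≤
      ∑' k : ℕ, ENNReal.ofReal (75000 * (x * Real.exp (-x))) * ENNReal.ofReal ((1 / 2) ^ k) :=
        ENNReal.tsum_le_tsum hterm
    _ = ENNReal.ofReal (75000 * (x * Real.exp (-x))) * ∑' k : ℕ, ENNReal.ofReal ((1 / 2) ^ k) :=
        ENNReal.tsum_mul_left
    _ = ENNReal.ofReal (75000 * (x * Real.exp (-x))) * ENNReal.ofReal 2 := by
        congr 1
        rw [← ENNReal.ofReal_tsum_of_nonneg (fun k => by positivity) summable_geometric_two,
          tsum_geometric_two]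
    _ = ENNReal.ofReal (150000 * (x * Real.exp (-x))) := by
        have : 0 ≤ x := by linarith
        rw [← ENNReal.ofReal_mul (by positivity)]
        congr 1
        ring

lemma volume_box_le {n : ℕ} {Y τ : ℝ} (hL : Lrg n Y τ) {x : ℝ} (hx : 7 ≤ x) (y : ℝ) :
    volume (logBad n ∩ {ζ : ℂ | ((x ≤ ζ.re ∧ ζ.re ≤ x + 1) ∧
        (y ≤ ζ.im ∧ ζ.im ≤ y + 2 * Real.pi)) ∧ ζ.re ≤ Real.log Y}) ≤
      ENNReal.ofReal (150000 * (x * Real.exp (-x))) +
        ENNReal.ofReal ((Real.log Y + 1) *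
          (30000 * Real.sqrt (9 * Real.log n / Y + 30 * τ))) := by
  have hY1 := hL.hY1
  have hτ0 := hL.τpos
  have hn := hL.npos
  have hn100 := hL.hn
  have hlogY := Real.log_nonneg hY1
  have hlogn : 0 ≤ Real.log n := Real.log_nonneg (by exact_mod_cast (by omega : 1 ≤ n))
  have hε : 0 ≤ 9 * Real.log n / Y + 30 * τ := by positivity
  refine (measure_mono (logBad_box_subset hL hx)).trans ((measure_union_le _ _).trans ?_)
  gcongr
  · exact (measure_iUnion_le _).trans (tsum_volume_thinSet hx y)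
  · refine (measure_biUnion_finset_le _ _).trans ?_
    calc _ ≤ ∑ _k ∈ Finset.range (⌊Real.log Y⌋₊ + 1),
          ENNReal.ofReal (30000 * Real.sqrt (9 * Real.log n / Y + 30 * τ)) :=
          Finset.sum_le_sum fun k _ => volume_finThin hx y k n hε
      _ = ENNReal.ofReal (((⌊Real.log Y⌋₊ + 1 : ℕ) : ℝ) *
            (30000 * Real.sqrt (9 * Real.log n / Y + 30 * τ))) := by
          rw [Finset.sum_const, Finset.card_range, nsmul_eq_mul,
            ENNReal.ofReal_mul (p := ((⌊Real.log Y⌋₊ + 1 : ℕ) : ℝ)) (by positivity),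
            ENNReal.ofReal_natCast]
      _ ≤ _ := by
          apply ENNReal.ofReal_le_ofReal
          gcongr
          push_cast
          have := Nat.floor_le hlogY
          linarith

lemma volume_tail_le {n : ℕ} {Y τ : ℝ} (hL : Lrg n Y τ) {R : ℝ} (hR : 7 ≤ R) :
    volume (logBad n ∩ {ζ : ℂ | (R ≤ ζ.re ∧ ζ.re ≤ Real.log Y) ∧
        (0 ≤ ζ.im ∧ ζ.im ≤ 2 * Real.pi)}) ≤
      ENNReal.ofReal (600000 * (R * Real.exp (-R))) +
        ENNReal.ofReal ((Real.log Y + 1) ^ 2 *
          (30000 * Real.sqrt (9 * Real.log n / Y + 30 * τ))) := by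
  have hY1 := hL.hY1
  have hlogY := Real.log_nonneg hY1
  set J := ⌊Real.log Y⌋₊ + 1 with hJ
  set A : ℕ → Set ℂ := fun j => logBad n ∩ {ζ : ℂ | ((R + j ≤ ζ.re ∧ ζ.re ≤ R + j + 1) ∧
        ((0 : ℝ) ≤ ζ.im ∧ ζ.im ≤ 0 + 2 * Real.pi)) ∧ ζ.re ≤ Real.log Y} with hA
  set E : ℝ := (Real.log Y + 1) * (30000 * Real.sqrt (9 * Real.log n / Y + 30 * τ)) with hE
  have hE0 : 0 ≤ E := by positivity
  have hcov : logBad n ∩ {ζ : ℂ | (R ≤ ζ.re ∧ ζ.re ≤ Real.log Y) ∧
        (0 ≤ ζ.im ∧ ζ.im ≤ 2 * Real.pi)} ⊆ ⋃ j ∈ Finset.range J, A j := by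
    rintro ζ ⟨hζ, ⟨h1, h2⟩, h3, h4⟩
    simp only [mem_iUnion, Finset.mem_range]
    refine ⟨⌊ζ.re - R⌋₊, ?_, hζ, ⟨⟨?_, ?_⟩, h3, by linarith⟩, h2⟩
    · rw [hJ]
      apply Nat.lt_succ_of_le
      apply Nat.floor_le_floor
      linarith
    · have := Nat.floor_le (by linarith : 0 ≤ ζ.re - R)
      linarith
    · have := (Nat.lt_floor_add_one (ζ.re - R)).le
      linarith
  have hR0 : 0 ≤ R := by linarith
  have hterm : ∀ j : ℕ, volume (A j) ≤
      ENNReal.ofReal (150000 * (R * Real.exp (-R))) * ENNReal.ofReal ((3 / 4) ^ j) +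
        ENNReal.ofReal E := by
    intro j
    have hj0 : (0 : ℝ) ≤ j := by positivity
    refine (volume_box_le hL (by linarith : 7 ≤ R + j) 0).trans ?_
    gcongr
    rw [← ENNReal.ofReal_mul (by positivity)]
    apply ENNReal.ofReal_le_ofReal
    have h1 : R + j ≤ R * (1 + j) := by nlinarith
    have h2 : (1 + (j : ℝ)) ≤ 2 ^ j := by
      have := one_add_mul_le_pow (a := (1 : ℝ)) (by norm_num) j
      norm_num at this
      linarith
    have hE : Real.exp (-(R + j)) = Real.exp (-R) * Real.exp (-1) ^ j := by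
      rw [← Real.exp_nat_mul, ← Real.exp_add]; congr 1; ring
    have h3 : Real.exp (-1) ≤ 3 / 8 := by
      have := Real.exp_neg_one_lt_d9
      linarith
    have h4 : Real.exp (-1) ^ j ≤ (3 / 8) ^ j := pow_le_pow_left₀ (Real.exp_pos _).le h3 j
    calc 150000 * ((R + j) * Real.exp (-(R + j)))
        ≤ 150000 * ((R * 2 ^ j) * (Real.exp (-R) * (3 / 8) ^ j)) := by
          rw [hE]
          have : R + j ≤ R * 2 ^ j := h1.trans (mul_le_mul_of_nonneg_left h2 hR0)
          gcongr
      _ = 150000 * (R * Real.exp (-R)) * (2 ^ j * (3 / 8) ^ j) := by ring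
      _ = 150000 * (R * Real.exp (-R)) * (3 / 4) ^ j := by rw [← mul_pow]; norm_num
  refine (measure_mono hcov).trans ((measure_biUnion_finset_le _ _).trans ?_)
  refine (Finset.sum_le_sum fun j _ => hterm j).trans ?_
  rw [Finset.sum_add_distrib]
  gcongr
  · calc ∑ j ∈ Finset.range J, ENNReal.ofReal (150000 * (R * Real.exp (-R))) *
          ENNReal.ofReal ((3 / 4) ^ j) ≤ ∑' j : ℕ, ENNReal.ofReal (150000 * (R * Real.exp (-R))) *
          ENNReal.ofReal ((3 / 4) ^ j) := ENNReal.sum_le_tsum _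
      _ = ENNReal.ofReal (150000 * (R * Real.exp (-R))) *
          ∑' j : ℕ, ENNReal.ofReal ((3 / 4) ^ j) := ENNReal.tsum_mul_left
      _ = ENNReal.ofReal (150000 * (R * Real.exp (-R))) * ENNReal.ofReal 4 := by
          congr 1
          rw [← ENNReal.ofReal_tsum_of_nonneg (fun k => by positivity)
            (summable_geometric_of_lt_one (by norm_num) (by norm_num)),
            tsum_geometric_of_lt_one (by norm_num) (by norm_num)]
          norm_num
      _ = ENNReal.ofReal (600000 * (R * Real.exp (-R))) := by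
          rw [← ENNReal.ofReal_mul (by positivity)]
          congr 1
          ring
  · rw [Finset.sum_const, Finset.card_range, nsmul_eq_mul, ← ENNReal.ofReal_natCast,
      ← ENNReal.ofReal_mul (by positivity)]
    apply ENNReal.ofReal_le_ofReal
    have h1 : (J : ℝ) ≤ Real.log Y + 1 := by
      rw [hJ]; push_cast
      have := Nat.floor_le hlogY
      linarith
    calc (J : ℝ) * E ≤ (Real.log Y + 1) * E := by gcongr
      _ = _ := by rw [hE]; ring

end Pool.Agent.helper48.EL
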